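import Mathlib

/-!
# Vietoris-Rips complexes of hypercubes and triangulations of the cube: definitions
-/

namespace Pool.Agent.Lib.H17.VR

open scoped BigOperators

/-- The vertex of the cube `[0,1]^n` given by a 0-1 vector. -/
def vtx {n : ℕ} (v : Fin n → Bool) : Fin n → ℝ := fun i => if v i then 1 else 0

/-- Points of the geometric realisation of the Vietoris-Rips complex `VR(Q_n; r)`: convex
weights on the vertices whose support has Hamming diameter at most `r`. -/
structure VRPoint (n r : ℕ) where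
  /-- barycentric coordinates -/
  wt : (Fin n → Bool) → ℝ
  nonneg : ∀ v, 0 ≤ wt v
  sum_one : ∑ v, wt v = 1
  diam : ∀ u v, wt u ≠ 0 → wt v ≠ 0 → hammingDist u v ≤ r

/-- The map `f_n : VR(Q_n; r) → [0,1]^n`, linear on each simplex. -/
noncomputable def fmap {n r : ℕ} (x : VRPoint n r) : Fin n → ℝ := ∑ v, x.wt v • vtx v

/-- `f_n` is surjective onto the cube. -/
def IsSurj (n r : ℕ) : Prop := ∀ p ∈ Set.Icc (0 : Fin n → ℝ) 1, ∃ x : VRPoint n r, fmap x = p

/-- `[0,1]^n` has a triangulation by simplices of diameter at most `r` (vertices in `{0,1}^n`). -/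
def HasTri (n r : ℕ) : Prop :=
  ∃ T : Finset (Finset (Fin n → Bool)),
    (∀ τ ∈ T, τ.card = n + 1 ∧ AffineIndependent ℝ (fun v : τ => vtx (v : Fin n → Bool)) ∧
      ∀ u ∈ τ, ∀ v ∈ τ, hammingDist u v ≤ r) ∧
    (⋃ τ ∈ T, convexHull ℝ (vtx '' (τ : Set (Fin n → Bool)))) = Set.Icc (0 : Fin n → ℝ) 1 ∧
    ∀ τ ∈ T, ∀ τ' ∈ T, convexHull ℝ (vtx '' (τ : Set (Fin n → Bool))) ∩
        convexHull ℝ (vtx '' (τ' : Set (Fin n → Bool))) =
      convexHull ℝ (vtx '' ((τ ∩ τ' : Finset (Fin n → Bool)) : Set (Fin n → Bool)))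

end Pool.Agent.Lib.H17.VR
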