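import Pool.Agent.Lib.H17.VR.Reg2
import Pool.Agent.Lib.H17.VR.Defs

/-!
# Height functions on the cube whose lower hull has small diameter
-/

namespace Pool.Agent.Lib.H17.VR

open Finset Filter Topology Polynomial
open scoped BigOperators

/-- Every pair at distance `> r` is beaten: its midpoint is a convex combination of vertices of
smaller average height. -/
def Good (n r : ℕ) (w : (Fin n → Bool) → ℝ) : Prop :=
  ∀ u v : Fin n → Bool, r < hammingDist u v → ∃ (J : Type) (_ : Fintype J)
    (p : J → Fin n → Bool) (g : J → ℝ), (∀ j, 0 ≤ g j) ∧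
      (∀ i, 2 * ∑ j, g j * vtx (p j) i = (∑ j, g j) * (vtx u i + vtx v i)) ∧
      2 * ∑ j, g j * w (p j) < (∑ j, g j) * (w u + w v)

theorem hull_cube (n : ℕ) : convexHull ℝ (vtx '' ((Finset.univ : Finset (Fin n → Bool)) : Set _)) =
    Set.Icc (0 : Fin n → ℝ) 1 := by
  have h1 : vtx '' ((Finset.univ : Finset (Fin n → Bool)) : Set _) =
      Set.univ.pi fun _ : Fin n => ({0, 1} : Set ℝ) := by
    ext x
    simp only [Finset.coe_univ, Set.image_univ, Set.mem_range, Set.mem_pi, Set.mem_univ,
      forall_const, Set.mem_insert_iff, Set.mem_singleton_iff]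
    constructor
    · rintro ⟨v, rfl⟩ i
      unfold vtx
      split_ifs
      · right; rfl
      · left; rfl
    · intro h
      classical
      refine ⟨fun i => decide (x i = 1), ?_⟩
      funext i
      unfold vtx
      rcases h i with h0 | h0 <;> simp [h0]
  rw [h1, convexHull_pi]
  ext x
  simp only [Set.mem_pi, Set.mem_univ, forall_const, convexHull_pair, segment_eq_Icc zero_le_one,
    Set.mem_Icc, Pi.le_def, Pi.zero_apply, Pi.one_apply]
  exact ⟨fun h => ⟨fun i => (h i).1, fun i => (h i).2⟩, fun h i => ⟨h.1 i, h.2 i⟩⟩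

theorem cube_generic (n : ℕ) (A : Finset (Option (Fin n) → ℝ)) (hA : ∀ a ∈ A, a ≠ 0) :
    ∃ y ∈ convexHull ℝ (vtx '' ((Finset.univ : Finset (Fin n → Bool)) : Set _)),
      ∀ a ∈ A, ev a y ≠ 0 := by
  rw [hull_cube]
  set Y : ℝ → Fin n → ℝ := fun t i => t ^ ((i : ℕ) + 1) with hY
  have h1 : ∀ᶠ t in 𝓝[>] (0 : ℝ), ∀ a : A, ev a.1 (Y t) ≠ 0 := by
    rw [eventually_all]
    rintro ⟨a, ha⟩
    set q : ℝ[X] := C (a none) + ∑ i : Fin n, monomial ((i : ℕ) + 1) (a (some i)) with hq
    have hq0 : q ≠ 0 := by
      intro h0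
      apply hA a ha
      funext o
      cases o with
      | none =>
        have := congrArg (fun p => Polynomial.coeff p 0) h0
        simp only [hq, coeff_add, coeff_C_zero, finsetSum_coeff, coeff_monomial, coeff_zero] at this
        rw [Finset.sum_eq_zero (fun i _ => if_neg (by omega)), add_zero] at this
        exact this
      | some i =>
        have := congrArg (fun p => Polynomial.coeff p ((i : ℕ) + 1)) h0
        simp only [hq, coeff_add, coeff_C_succ, zero_add, finsetSum_coeff, coeff_monomial,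
          coeff_zero] at this
        rw [Finset.sum_eq_single i] at this
        · simpa using this
        · intro j _ hj
          rw [if_neg]
          intro h'
          exact hj (Fin.ext (by omega))
        · intro h'; exact absurd (Finset.mem_univ i) h'
    filter_upwards [eventually_ne_zero hq0] with t ht
    have : ev a (Y t) = q.eval t := by
      unfold ev
      rw [hq, eval_add, eval_C, eval_finsetSum]
      simp only [hY, eval_monomial]
    rw [this]; exact ht
  have h2 : ∀ᶠ t in 𝓝[>] (0 : ℝ), t < 1 :=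
    mem_nhdsWithin_of_mem_nhds (Iio_mem_nhds (by norm_num))
  obtain ⟨t, ht, ht1, ht0⟩ := (h1.and (h2.and self_mem_nhdsWithin)).exists
  have ht0' : (0 : ℝ) < t := ht0
  refine ⟨Y t, ?_, fun a ha => ht ⟨a, ha⟩⟩
  simp only [Set.mem_Icc, Pi.le_def, Pi.zero_apply, Pi.one_apply]
  exact ⟨fun i => pow_nonneg ht0'.le _, fun i => pow_le_one₀ ht0'.le ht1.le⟩

theorem Good.hasTri {n r : ℕ} {w : (Fin n → Bool) → ℝ} (hw : Good n r w) : HasTri n r := by
  classical
  choose J hJ p g hg1 hg2 hg3 using hw
  obtain ⟨w', hgen, hstr⟩ := exists_generic (P := vtx) w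
    (ι := {uv : (Fin n → Bool) × (Fin n → Bool) // r < hammingDist uv.1 uv.2})
    (fun c w => 2 * ∑ j, g c.1.1 c.1.2 c.2 j * w (p c.1.1 c.1.2 c.2 j) -
      (∑ j, g c.1.1 c.1.2 c.2 j) * (w c.1.1 + w c.1.2))
    (fun c => by fun_prop)
    (fun c => sub_neg.2 (hg3 c.1.1 c.1.2 c.2))
  refine ⟨Tri vtx w', fun S hS => ?_, ?_, fun S hS S' hS' => Tri_inter hgen hS hS'⟩
  · obtain ⟨h1, h2, a, ha1, ha2⟩ := mem_Tri.1 hS
    refine ⟨h1, ?_, fun u hu v hv => ?_⟩
    · rw [affineIndependent_iff]
      intro s d hd1 hd2 e he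
      set D : (Fin n → Bool) → ℝ := fun v => if h : v ∈ S then (if (⟨v, h⟩ : S) ∈ s then
        d ⟨v, h⟩ else 0) else 0 with hD
      have key : ∀ f : (Fin n → Bool) → ℝ, ∑ v, D v * f v = ∑ e ∈ s, d e * f e := by
        intro f
        rw [← Finset.sum_subset (Finset.subset_univ S) (fun v _ hv => by
          rw [hD]; simp only; rw [dif_neg hv, zero_mul]), ← Finset.sum_coe_sort S,
          ← Finset.sum_subset (Finset.subset_univ s)]
        · refine Finset.sum_congr rfl fun v hv => ?_
          rw [hD]; simp only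
          rw [dif_pos v.2, if_pos hv]
        · intro v _ hv
          rw [hD]; simp only
          rw [dif_pos v.2, if_neg hv, zero_mul]
      have h3 := h2 D (fun v hv => dif_neg hv) ⟨by
        have := key (fun _ => 1)
        simp only [mul_one] at this
        rw [this, hd1], fun i => by
        rw [key (fun v => vtx v i)]
        have := congrFun hd2 i
        simpa using this⟩
      have h4 := congrFun h3 e
      rw [hD] at h4
      simp only at h4
      rw [dif_pos e.2, if_pos he] at h4
      exact h4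
    · by_contra hcon
      push Not at hcon
      have h3 := hstr ⟨(u, v), hcon⟩
      simp only at h3
      have h5 : 2 * ∑ j, g u v hcon j * ev a (vtx (p u v hcon j)) =
          (∑ j, g u v hcon j) * (ev a (vtx u) + ev a (vtx v)) := by
        unfold ev
        simp only [mul_add, Finset.sum_add_distrib, Finset.mul_sum]
        rw [Finset.sum_comm]
        have e1 : ∀ i, ∑ j, 2 * (g u v hcon j * (a (some i) * vtx (p u v hcon j) i)) =
            a (some i) * ((∑ j, g u v hcon j) * (vtx u i + vtx v i)) := by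
          intro i
          rw [← hg2 u v hcon i, Finset.mul_sum, Finset.mul_sum]
          exact Finset.sum_congr rfl fun j _ => by ring
        simp only [e1]
        simp only [Finset.sum_mul, ← Finset.mul_sum, ← Finset.sum_mul]
        have e2 : ∀ i, a (some i) * ((∑ j, g u v hcon j) * (vtx u i + vtx v i)) =
            (∑ j, g u v hcon j) * (a (some i) * vtx u i) +
            (∑ j, g u v hcon j) * (a (some i) * vtx v i) := fun i => by ring
        simp only [e2, Finset.sum_add_distrib, ← Finset.mul_sum]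
        ring
      have h6 : ∑ j, g u v hcon j * ev a (vtx (p u v hcon j)) ≤
          ∑ j, g u v hcon j * w' (p u v hcon j) :=
        Finset.sum_le_sum fun j _ => mul_le_mul_of_nonneg_left (ha2 _) (hg1 u v hcon j)
      rw [ha1 u hu, ha1 v hv] at h5
      linarith
  · rw [← hull_cube]
    apply Set.Subset.antisymm
    · intro x hx
      obtain ⟨S, _, hxS⟩ := Set.mem_iUnion₂.1 hx
      exact convexHull_mono (Set.image_mono (by simp)) hxS
    · intro x hx
      obtain ⟨S, hS, hxS⟩ := Tri_cover hgen (cube_generic n) hx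
      exact Set.mem_iUnion₂.2 ⟨S, hS, hxS⟩

theorem HasTri.isSurj {n r : ℕ} (h : HasTri n r) : IsSurj n r := by
  classical
  obtain ⟨T, h1, h2, _⟩ := h
  intro x hx
  rw [← h2] at hx
  obtain ⟨S, hS, hxS⟩ := Set.mem_iUnion₂.1 hx
  obtain ⟨l, hl1, hl2, hl3, hl4⟩ := mem_hull_iff.1 hxS
  refine ⟨⟨l, hl2, hl3, fun u v hu hv => (h1 S hS).2.2 u ?_ v ?_⟩, ?_⟩
  · by_contra h; exact hu (hl1 u h)
  · by_contra h; exact hv (hl1 v h)
  · funext i
    unfold fmap
    rw [Finset.sum_apply]
    exact hl4 i

end Pool.Agent.Lib.H17.VR
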