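import Pool.Agent.Lib.H17.VR.Even

/-!
# The cube of dimension 11: simplices of diameter 6 from the Paley-Hadamard matrix of order 12
-/

namespace Pool.Agent.Lib.H17.VR

open Finset
open scoped BigOperators

/-- the rows of the Paley-Hadamard matrix of order 12 -/
def A11 (a : Fin 12) (k : Fin 11) : Bool :=
  (a.val == 0) || ([1, 3, 4, 5, 9].contains ((k.val + 12 - a.val) % 11))

/-- neighbours of the negatives of the rows -/
def Q11 (a : Fin 12) (l : Fin 11) : Fin 11 → Bool := fun k => if k = l then A11 a k else !(A11 a k)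

theorem A11_sum (i : Fin 11) : ∑ a, sgn (A11 a i) = 0 := by revert i; decide +kernel

theorem A11_orth (i l : Fin 11) (h : i ≠ l) : ∑ a, sgn (A11 a i) * sgn (A11 a l) = 0 := by
  revert i l; decide +kernel

theorem A11_Pa (a : Fin 12) : Pa (A11 a) = 1 := by revert a; decide +kernel

theorem A11_dist (a b : Fin 12) : hammingDist (A11 a) (A11 b) ≤ 6 := by
  revert a b; decide +kernel

theorem A11_Q11 (a b : Fin 12) (l : Fin 11) : hammingDist (A11 a) (Q11 b l) ≠ 8 := by
  revert a b l; decide +kernel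

theorem Q11_Pa (a : Fin 12) (l : Fin 11) : Pa (Q11 a l) = 1 := by revert a l; decide +kernel

theorem A11_three' : ∀ i j k : Fin 11, (i = j ∨ i = k ∨ j = k) ∨ ∀ s1 s2 s3 : Bool,
    ∃ a, (A11 a i = s1 ∧ A11 a j = s2 ∧ A11 a k = s3) := by
  decide +kernel

theorem A11_three (i j k : Fin 11) (h1 : i ≠ j) (h2 : i ≠ k) (h3 : j ≠ k) (s1 s2 s3 : Bool) :
    ∃ a, A11 a i = s1 ∧ A11 a j = s2 ∧ A11 a k = s3 := by
  rcases A11_three' i j k with (h | h | h) | h
  · exact absurd h h1
  · exact absurd h h2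
  · exact absurd h h3
  · exact h s1 s2 s3

end Pool.Agent.Lib.H17.VR
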