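import Pool.Agent.Lib.H17.VR.Eleven

/-!
# The cube of dimension 11: certificates for the faces of dimension 8
-/

namespace Pool.Agent.Lib.H17.VR

open Finset
open scoped BigOperators

/-- real sign -/
noncomputable def rs (b : Bool) : ℝ := (sgn b : ℝ)

theorem rs_eq {b c : Bool} (h : b = c) : rs c * rs b = 1 := by
  subst h; cases b <;> simp [rs, sgn]

theorem rs_ne {b c : Bool} (h : b ≠ c) : rs c * rs b = -1 := by
  cases b <;> cases c <;> simp_all [rs, sgn]

/-- agreement with `u` on three coordinates -/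
def In3 (u : Fin 11 → Bool) (i j k : Fin 11) (x : Fin 11 → Bool) : Prop :=
  x i = u i ∧ x j = u j ∧ x k = u k

open Classical in
/-- weights of the points `Q11 a l` -/
noncomputable def G11 (u : Fin 11 → Bool) (i j k : Fin 11) (a : Fin 12) (l : Fin 11) : ℝ :=
  if In3 u i j k (Q11 a l) then
    (if A11 a i = u i ∨ A11 a j = u j ∨ A11 a k = u k then 1 else 1 / 3) else 0

theorem Q11_iff (u : Fin 11 → Bool) (a : Fin 12) (l m : Fin 11) :
    Q11 a l m = u m ↔ (m = l ∧ A11 a m = u m) ∨ (m ≠ l ∧ A11 a m ≠ u m) := by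
  unfold Q11
  by_cases h : m = l
  · rw [if_pos h]; simp [h]
  · rw [if_neg h]
    cases A11 a m <;> cases u m <;> simp [h]

theorem rs_Q11 (a : Fin 12) (l m : Fin 11) :
    rs (Q11 a l m) = (if l = m then 1 else -1) * rs (A11 a m) := by
  unfold Q11
  by_cases h : m = l
  · rw [if_pos h, if_pos h.symm, one_mul]
  · rw [if_neg h, if_neg (fun h' => h h'.symm)]
    cases A11 a m <;> simp [rs, sgn]

theorem sum_tau (m : Fin 11) : ∑ l : Fin 11, (if l = m then (1 : ℝ) else -1) = -9 := by
  have h : ∀ l : Fin 11, (if l = m then (1 : ℝ) else -1) = 2 * (if l = m then 1 else 0) - 1 := by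
    intro l; split_ifs <;> norm_num
  simp only [h, Finset.sum_sub_distrib, ← Finset.mul_sum, Finset.sum_ite_eq', Finset.mem_univ,
    if_true, Finset.sum_const, Finset.card_univ, Fintype.card_fin, nsmul_eq_mul]
  norm_num

open Classical in
theorem rowsum (u : Fin 11 → Bool) {i j k m : Fin 11} (hij : i ≠ j) (hik : i ≠ k) (hjk : j ≠ k)
    (hmi : m ≠ i) (hmj : m ≠ j) (hmk : m ≠ k) (a : Fin 12) :
    (if In3 u i j k (A11 a) then (1 : ℝ) else 0) * rs (A11 a m) +
      ∑ l, G11 u i j k a l * rs (Q11 a l m) =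
      (rs (u i) * rs (A11 a i) + rs (u j) * rs (A11 a j) + rs (u k) * rs (A11 a k) - 1) / 2 *
        rs (A11 a m) := by
  -- reduce to a scalar identity
  suffices hmain : (if In3 u i j k (A11 a) then (1 : ℝ) else 0) +
      ∑ l, G11 u i j k a l * (if l = m then 1 else -1) =
      (rs (u i) * rs (A11 a i) + rs (u j) * rs (A11 a j) + rs (u k) * rs (A11 a k) - 1) / 2 by
    rw [← hmain, add_mul, Finset.sum_mul]
    congr 1
    exact Finset.sum_congr rfl fun l _ => by rw [rs_Q11]; ring
  have hQ : ∀ l, In3 u i j k (Q11 a l) ↔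
      ((i = l ∧ A11 a i = u i) ∨ (i ≠ l ∧ A11 a i ≠ u i)) ∧
      ((j = l ∧ A11 a j = u j) ∨ (j ≠ l ∧ A11 a j ≠ u j)) ∧
      ((k = l ∧ A11 a k = u k) ∨ (k ≠ l ∧ A11 a k ≠ u k)) := by
    intro l
    unfold In3
    rw [Q11_iff, Q11_iff, Q11_iff]
  have single : ∀ t : Fin 11, m ≠ t → (∀ l, In3 u i j k (Q11 a l) ↔ l = t) →
      (A11 a i = u i ∨ A11 a j = u j ∨ A11 a k = u k) →
      ∑ l, G11 u i j k a l * (if l = m then 1 else -1) = -1 := by
    intro t hmt ht hor
    rw [Finset.sum_eq_single t]
    · unfold G11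
      rw [if_pos ((ht t).2 rfl), if_pos hor, if_neg (Ne.symm hmt)]; norm_num
    · intro l _ hl
      unfold G11
      rw [if_neg (fun h => hl ((ht l).1 h)), zero_mul]
    · intro h; exact absurd (Finset.mem_univ t) h
  have none : (∀ l, ¬ In3 u i j k (Q11 a l)) →
      ∑ l, G11 u i j k a l * (if l = m then 1 else -1) = 0 := by
    intro ht
    refine Finset.sum_eq_zero fun l _ => ?_
    unfold G11
    rw [if_neg (ht l), zero_mul]
  by_cases hx : A11 a i = u i <;> by_cases hy : A11 a j = u j <;> by_cases hz : A11 a k = u k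
  · rw [none (fun l h => by
      rw [hQ l] at h
      obtain ⟨h1, h2, _⟩ := h
      rcases h1 with ⟨h1, _⟩ | ⟨_, h1⟩
      · rcases h2 with ⟨h2, _⟩ | ⟨_, h2⟩
        · exact hij (h1.trans h2.symm)
        · exact h2 hy
      · exact h1 hx), if_pos ⟨hx, hy, hz⟩, rs_eq hx, rs_eq hy, rs_eq hz]
    norm_num
  · rw [none (fun l h => by
      rw [hQ l] at h
      obtain ⟨h1, h2, _⟩ := h
      rcases h1 with ⟨h1, _⟩ | ⟨_, h1⟩
      · rcases h2 with ⟨h2, _⟩ | ⟨_, h2⟩
        · exact hij (h1.trans h2.symm)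
        · exact h2 hy
      · exact h1 hx), if_neg (fun h => hz h.2.2), rs_eq hx, rs_eq hy, rs_ne hz]
    norm_num
  · rw [none (fun l h => by
      rw [hQ l] at h
      obtain ⟨h1, _, h2⟩ := h
      rcases h1 with ⟨h1, _⟩ | ⟨_, h1⟩
      · rcases h2 with ⟨h2, _⟩ | ⟨_, h2⟩
        · exact hik (h1.trans h2.symm)
        · exact h2 hz
      · exact h1 hx), if_neg (fun h => hy h.2.1), rs_eq hx, rs_ne hy, rs_eq hz]
    norm_num
  · rw [single i hmi (fun l => by
      rw [hQ l]
      constructor
      · rintro ⟨h1, _⟩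
        rcases h1 with ⟨h1, _⟩ | ⟨_, h1⟩
        · exact h1.symm
        · exact absurd hx h1
      · rintro rfl
        exact ⟨Or.inl ⟨rfl, hx⟩, Or.inr ⟨Ne.symm hij, hy⟩, Or.inr ⟨Ne.symm hik, hz⟩⟩) (Or.inl hx),
      if_neg (fun h => hy h.2.1), rs_eq hx, rs_ne hy, rs_ne hz]
    norm_num
  · rw [none (fun l h => by
      rw [hQ l] at h
      obtain ⟨_, h1, h2⟩ := h
      rcases h1 with ⟨h1, _⟩ | ⟨_, h1⟩
      · rcases h2 with ⟨h2, _⟩ | ⟨_, h2⟩
        · exact hjk (h1.trans h2.symm)
        · exact h2 hz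
      · exact h1 hy), if_neg (fun h => hx h.1), rs_ne hx, rs_eq hy, rs_eq hz]
    norm_num
  · rw [single j hmj (fun l => by
      rw [hQ l]
      constructor
      · rintro ⟨_, h1, _⟩
        rcases h1 with ⟨h1, _⟩ | ⟨_, h1⟩
        · exact h1.symm
        · exact absurd hy h1
      · rintro rfl
        exact ⟨Or.inr ⟨hij, hx⟩, Or.inl ⟨rfl, hy⟩, Or.inr ⟨Ne.symm hjk, hz⟩⟩) (Or.inr (Or.inl hy)),
      if_neg (fun h => hx h.1), rs_ne hx, rs_eq hy, rs_ne hz]
    norm_num
  · rw [single k hmk (fun l => by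
      rw [hQ l]
      constructor
      · rintro ⟨_, _, h1⟩
        rcases h1 with ⟨h1, _⟩ | ⟨_, h1⟩
        · exact h1.symm
        · exact absurd hz h1
      · rintro rfl
        exact ⟨Or.inr ⟨hik, hx⟩, Or.inr ⟨hjk, hy⟩, Or.inl ⟨rfl, hz⟩⟩) (Or.inr (Or.inr hz)),
      if_neg (fun h => hx h.1), rs_ne hx, rs_ne hy, rs_eq hz]
    norm_num
  · have hG : ∀ l, G11 u i j k a l * (if l = m then (1 : ℝ) else -1) =
        1 / 3 * ((if l = m then (1 : ℝ) else -1) + ((if l = i then 1 else 0) +
          (if l = j then 1 else 0) + (if l = k then 1 else 0))) := by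
      intro l
      have hor : ¬ (A11 a i = u i ∨ A11 a j = u j ∨ A11 a k = u k) := by
        rintro (h | h | h)
        · exact hx h
        · exact hy h
        · exact hz h
      unfold G11
      rw [if_neg hor]
      by_cases hli : l = i
      · subst hli
        rw [if_neg, if_neg (Ne.symm hmi), if_pos rfl, if_neg hij, if_neg hik]
        · norm_num
        · rw [hQ l]
          rintro ⟨h1, _⟩
          rcases h1 with ⟨_, h1⟩ | ⟨h1, _⟩
          · exact hx h1
          · exact h1 rfl
      by_cases hlj : l = j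
      · subst hlj
        rw [if_neg, if_neg (Ne.symm hmj), if_neg hli, if_pos rfl, if_neg hjk]
        · norm_num
        · rw [hQ l]
          rintro ⟨_, h1, _⟩
          rcases h1 with ⟨_, h1⟩ | ⟨h1, _⟩
          · exact hy h1
          · exact h1 rfl
      by_cases hlk : l = k
      · subst hlk
        rw [if_neg, if_neg (Ne.symm hmk), if_neg hli, if_neg hlj, if_pos rfl]
        · norm_num
        · rw [hQ l]
          rintro ⟨_, _, h1⟩
          rcases h1 with ⟨_, h1⟩ | ⟨h1, _⟩
          · exact hz h1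
          · exact h1 rfl
      rw [if_pos, if_neg hli, if_neg hlj, if_neg hlk]
      · ring
      · rw [hQ l]
        exact ⟨Or.inr ⟨Ne.symm hli, hx⟩, Or.inr ⟨Ne.symm hlj, hy⟩, Or.inr ⟨Ne.symm hlk, hz⟩⟩
    simp only [hG, ← Finset.mul_sum, Finset.sum_add_distrib, sum_tau, Finset.sum_ite_eq',
      Finset.mem_univ, if_true]
    rw [if_neg (fun h => hx h.1), rs_ne hx, rs_ne hy, rs_ne hz]
    norm_num

theorem cert8 (w : (Fin 11 → Bool) → ℝ) (hwA : ∀ a, w (A11 a) = 0)
    (hwQ : ∀ a l, w (Q11 a l) ≤ 1) (u v : Fin 11 → Bool) (hd : hammingDist u v = 8)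
    (huv : 2 ≤ w u + w v) :
    ∃ (J : Type) (_ : Fintype J) (p : J → Fin 11 → Bool) (g : J → ℝ), (∀ j, 0 ≤ g j) ∧
      (∀ i, 2 * ∑ j, g j * vtx (p j) i = (∑ j, g j) * (vtx u i + vtx v i)) ∧
      2 * ∑ j, g j * w (p j) < (∑ j, g j) * (w u + w v) := by
  classical
  have h1 := card_eq_set u v
  obtain ⟨i, j, k, hij, hik, hjk, hs⟩ := Finset.card_eq_three.1
    (by omega : (Finset.univ.filter fun k => u k = v k).card = 3)
  have hmem : ∀ m, u m = v m ↔ (m = i ∨ m = j ∨ m = k) := by
    intro m
    have : m ∈ Finset.univ.filter (fun k => u k = v k) ↔ m ∈ ({i, j, k} : Finset (Fin 11)) := by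
      rw [hs]
    simpa using this
  set gA : Fin 12 → ℝ := fun a => if In3 u i j k (A11 a) then 1 else 0 with hgA
  have hgA0 : ∀ a, 0 ≤ gA a := fun a => by rw [hgA]; dsimp only; split_ifs <;> norm_num
  have hG0 : ∀ a l, 0 ≤ G11 u i j k a l := fun a l => by unfold G11; split_ifs <;> norm_num
  have hInm : ∀ x m, In3 u i j k x → u m = v m → x m = u m := by
    intro x m hx hm
    rcases (hmem m).1 hm with rfl | rfl | rfl
    · exact hx.1
    · exact hx.2.1
    · exact hx.2.2
  refine ⟨Fin 12 ⊕ (Fin 12 × Fin 11), inferInstance, Sum.elim A11 (fun al => Q11 al.1 al.2),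
    Sum.elim gA (fun al => G11 u i j k al.1 al.2), ?_, fun m => ?_, ?_⟩
  · rintro (a | ⟨a, l⟩)
    · exact hgA0 a
    · exact hG0 a l
  · simp only [Fintype.sum_sum_type, Sum.elim_inl, Sum.elim_inr, Fintype.sum_prod_type]
    by_cases hm : u m = v m
    · have e : vtx v m = vtx u m := by unfold vtx; rw [hm]
      have e1 : ∀ a, gA a * vtx (A11 a) m = gA a * vtx u m := by
        intro a
        by_cases h : In3 u i j k (A11 a)
        · have : vtx (A11 a) m = vtx u m := by unfold vtx; rw [hInm _ m h hm]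
          rw [this]
        · have : gA a = 0 := if_neg h
          rw [this]; ring
      have e2 : ∀ a l, G11 u i j k a l * vtx (Q11 a l) m = G11 u i j k a l * vtx u m := by
        intro a l
        by_cases h : In3 u i j k (Q11 a l)
        · have : vtx (Q11 a l) m = vtx u m := by unfold vtx; rw [hInm _ m h hm]
          rw [this]
        · have : G11 u i j k a l = 0 := if_neg h
          rw [this]; ring
      simp only [e1, e2, e]
      simp only [← Finset.sum_mul]
      ring
    · have hmi : m ≠ i := fun h => hm ((hmem m).2 (Or.inl h))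
      have hmj : m ≠ j := fun h => hm ((hmem m).2 (Or.inr (Or.inl h)))
      have hmk : m ≠ k := fun h => hm ((hmem m).2 (Or.inr (Or.inr h)))
      have e : vtx u m + vtx v m = 1 := by
        unfold vtx
        cases hu : u m <;> cases hv : v m <;> simp_all
      rw [e, mul_one]
      have key : ∑ a, (gA a * rs (A11 a m) + ∑ l, G11 u i j k a l * rs (Q11 a l m)) = 0 := by
        rw [Finset.sum_congr rfl fun a _ => rowsum u hij hik hjk hmi hmj hmk a]
        have e3 : ∀ a, (rs (u i) * rs (A11 a i) + rs (u j) * rs (A11 a j) +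
            rs (u k) * rs (A11 a k) - 1) / 2 * rs (A11 a m) =
            ((sgn (u i) * (sgn (A11 a i) * sgn (A11 a m)) + sgn (u j) * (sgn (A11 a j) *
              sgn (A11 a m)) + sgn (u k) * (sgn (A11 a k) * sgn (A11 a m)) - sgn (A11 a m) : ℤ) :
              ℝ) / 2 := by
          intro a
          unfold rs
          push_cast
          ring
        simp only [e3]
        rw [← Finset.sum_div, ← Int.cast_sum, Finset.sum_sub_distrib, Finset.sum_add_distrib,
          Finset.sum_add_distrib, ← Finset.mul_sum, ← Finset.mul_sum, ← Finset.mul_sum,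
          A11_orth i m (Ne.symm hmi), A11_orth j m (Ne.symm hmj), A11_orth k m (Ne.symm hmk),
          A11_sum]
        simp
      have e4 : ∀ (x : Fin 11 → Bool), rs (x m) = 2 * vtx x m - 1 := fun x => sgn_vtx x m
      simp only [e4, Finset.sum_add_distrib, mul_sub, mul_one, Finset.sum_sub_distrib] at key
      have e5 : ∀ a, gA a * (2 * vtx (A11 a) m) = 2 * (gA a * vtx (A11 a) m) := fun a => by ring
      have e6 : ∀ a l, G11 u i j k a l * (2 * vtx (Q11 a l) m) =
        2 * (G11 u i j k a l * vtx (Q11 a l) m) := fun a l => by ring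
      simp only [e5, e6, ← Finset.mul_sum] at key
      linarith
  · simp only [Fintype.sum_sum_type, Sum.elim_inl, Sum.elim_inr, Fintype.sum_prod_type, hwA,
      mul_zero, Finset.sum_const_zero, zero_add]
    have e1 : ∑ a, ∑ l, G11 u i j k a l * w (Q11 a l) ≤ ∑ a, ∑ l, G11 u i j k a l :=
      Finset.sum_le_sum fun a _ => Finset.sum_le_sum fun l _ => by
        have := mul_le_mul_of_nonneg_left (hwQ a l) (hG0 a l)
        linarith
    have e2 : 1 ≤ ∑ a, gA a := by
      obtain ⟨a, ha1, ha2, ha3⟩ := A11_three i j k hij hik hjk (u i) (u j) (u k)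
      have : gA a = 1 := if_pos ⟨ha1, ha2, ha3⟩
      rw [← this]
      exact Finset.single_le_sum (fun b _ => hgA0 b) (Finset.mem_univ a)
    have e3 : 0 ≤ ∑ a, ∑ l, G11 u i j k a l :=
      Finset.sum_nonneg fun a _ => Finset.sum_nonneg fun l _ => hG0 a l
    have e4 : (∑ a, gA a + ∑ a, ∑ l, G11 u i j k a l) * 2 ≤
        (∑ a, gA a + ∑ a, ∑ l, G11 u i j k a l) * (w u + w v) :=
      mul_le_mul_of_nonneg_left huv (by linarith)
    linarith

theorem ex_11_6 : Ex 11 6 := by
  classical
  set w : (Fin 11 → Bool) → ℝ := fun x => if ∃ a, A11 a = x then 0 else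
    if ∃ a l, Q11 a l = x then 1 else if Pa x = 1 then 2 else 5 with hw
  have hnn : ∀ x, 0 ≤ w x := fun x => by simp only [hw]; split_ifs <;> norm_num
  have hwA : ∀ a, w (A11 a) = 0 := fun a => by simp only [hw]; rw [if_pos ⟨a, rfl⟩]
  have hwQ : ∀ a l, w (Q11 a l) ≤ 1 := fun a l => by
    simp only [hw]
    split_ifs with h1 h2
    · norm_num
    · norm_num
    · exact absurd ⟨a, l, rfl⟩ h2
    · exact absurd ⟨a, l, rfl⟩ h2
  refine ⟨w, good_of_parity (by norm_num) w 2 1 (Or.inl rfl) ?_ ?_ hnn ?_⟩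
  · intro x hx
    simp only [hw, if_pos hx]
    split_ifs <;> norm_num
  · intro x hx
    have h1 : ¬ ∃ a, A11 a = x := by
      rintro ⟨a, rfl⟩
      exact hx (A11_Pa a)
    have h2 : ¬ ∃ a l, Q11 a l = x := by
      rintro ⟨a, l, rfl⟩
      exact hx (Q11_Pa a l)
    simp only [hw, if_neg hx, if_neg h1, if_neg h2]; norm_num
  · intro u v h hu hv he
    have h11 := hammingDist_le_card_fintype (x := u) (y := v)
    rw [Fintype.card_fin] at h11
    have key0 : ∀ x, w x = 0 → ∃ a, A11 a = x := by
      intro x hx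
      by_contra hne
      simp only [hw, if_neg hne] at hx
      split_ifs at hx <;> norm_num at hx
    have hcases : hammingDist u v = 8 ∨ hammingDist u v = 10 := by
      have : hammingDist u v = 7 ∨ hammingDist u v = 8 ∨ hammingDist u v = 9 ∨
        hammingDist u v = 10 ∨ hammingDist u v = 11 := by omega
      rcases this with h5 | h5 | h5 | h5 | h5
      · rw [h5] at he; exact absurd he (by decide)
      · exact Or.inl h5
      · rw [h5] at he; exact absurd he (by decide)
      · exact Or.inr h5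
      · rw [h5] at he; exact absurd he (by decide)
    rcases hcases with h8 | h10
    · refine cert8 w hwA hwQ u v h8 ?_
      -- a row and a vertex at distance 8
      have hrow : ∀ x y : Fin 11 → Bool, hammingDist x y = 8 → Pa y = 1 → (∃ a, A11 a = x) →
          w y = 2 := by
        rintro x y hxy hy ⟨a, rfl⟩
        have h1 : ¬ ∃ b, A11 b = y := by
          rintro ⟨b, rfl⟩
          have := A11_dist a b
          omega
        have h2 : ¬ ∃ b l, Q11 b l = y := by
          rintro ⟨b, l, rfl⟩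
          exact A11_Q11 a b l hxy
        simp only [hw, if_neg h1, if_neg h2, if_pos hy]
      by_cases hur : ∃ a, A11 a = u
      · have := hrow u v h8 hv hur
        have := hnn u
        linarith
      by_cases hvr : ∃ a, A11 a = v
      · have := hrow v u (by rw [hammingDist_comm]; exact h8) hu hvr
        have := hnn v
        linarith
      have h1 : ∀ x, ¬ (∃ a, A11 a = x) → 1 ≤ w x := by
        intro x hx
        simp only [hw, if_neg hx]
        split_ifs <;> norm_num
      have := h1 u hur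
      have := h1 v hvr
      linarith
    · refine facet_cert A11 A11_sum A11_orth w hwA u v (by rw [h10]) ?_
      by_contra hc
      have e1 : w u = 0 := le_antisymm (by have := hnn v; linarith) (hnn u)
      have e2 : w v = 0 := le_antisymm (by have := hnn u; linarith) (hnn v)
      obtain ⟨a, ha⟩ := key0 u e1
      obtain ⟨b, hb⟩ := key0 v e2
      have := A11_dist a b
      rw [ha, hb] at this
      omega

end Pool.Agent.Lib.H17.VR
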