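import Pool.Agent.Lib.H17.VR.Prod

/-!
# Heights that are large on one parity class
-/

namespace Pool.Agent.Lib.H17.VR

open Finset
open scoped BigOperators

/-- parity of a vertex -/
def Pa {n : ℕ} (x : Fin n → Bool) : ℤ := ∏ k, sgn (x k)

theorem sgn_eq (b : Bool) : sgn b = 1 ∨ sgn b = -1 := by cases b <;> simp [sgn]

theorem Pa_eq {n : ℕ} (x : Fin n → Bool) : Pa x = 1 ∨ Pa x = -1 := by
  unfold Pa
  induction n with
  | zero => left; simp
  | succ n ih =>
    rw [Fin.prod_univ_succ]
    rcases sgn_eq (x 0) with h | h <;> rcases ih (fun k => x k.succ) with h' | h' <;>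
      rw [h, h'] <;> simp

theorem Pa_mul {n : ℕ} (u v : Fin n → Bool) : Pa u * Pa v = (-1) ^ hammingDist u v := by
  unfold Pa hammingDist
  rw [← Finset.prod_mul_distrib, Finset.card_filter, ← Finset.prod_pow_eq_pow_sum]
  refine Finset.prod_congr rfl fun k _ => ?_
  cases u k <;> cases v k <;> simp [sgn]

/-- flip two coordinates -/
def flip2 {n : ℕ} (i j : Fin n) (x : Fin n → Bool) : Fin n → Bool :=
  fun k => if k = i then !(x k) else if k = j then !(x k) else x k

theorem flip2_flip2 {n : ℕ} (i j : Fin n) (x : Fin n → Bool) : flip2 i j (flip2 i j x) = x := by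
  funext k
  unfold flip2
  split_ifs <;> simp

theorem Pa_flip2 {n : ℕ} {i j : Fin n} (hij : i ≠ j) (x : Fin n → Bool) :
    Pa (flip2 i j x) = Pa x := by
  unfold Pa flip2
  have h : ∀ k, sgn (if k = i then !(x k) else if k = j then !(x k) else x k) =
      sgn (x k) * ((if k = i then -1 else 1) * (if k = j then -1 else 1)) := by
    intro k
    by_cases h1 : k = i
    · have h2 : k ≠ j := fun h => hij (h1 ▸ h)
      rw [if_pos h1, if_pos h1, if_neg h2]
      cases x k <;> simp [sgn]
    · rw [if_neg h1, if_neg h1]
      by_cases h2 : k = j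
      · rw [if_pos h2, if_pos h2]
        cases x k <;> simp [sgn]
      · rw [if_neg h2, if_neg h2]; simp
  simp only [h, Finset.prod_mul_distrib, Finset.prod_ite_eq', Finset.mem_univ, if_true]
  norm_num

/-- flip one coordinate -/
def flip1 {n : ℕ} (i : Fin n) (x : Fin n → Bool) : Fin n → Bool :=
  fun k => if k = i then !(x k) else x k

theorem Pa_flip1 {n : ℕ} (i : Fin n) (x : Fin n → Bool) : Pa (flip1 i x) = - Pa x := by
  unfold Pa flip1
  have h : ∀ k, sgn (if k = i then !(x k) else x k) = sgn (x k) * (if k = i then -1 else 1) := by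
    intro k
    by_cases h1 : k = i
    · rw [if_pos h1, if_pos h1]
      cases x k <;> simp [sgn]
    · rw [if_neg h1, if_neg h1]; simp
  simp only [h, Finset.prod_mul_distrib, Finset.prod_ite_eq', Finset.mem_univ, if_true]
  ring

open Classical in
/-- indicator of the vertices of one parity in the face spanned by `u`, `v` -/
noncomputable def evg {n : ℕ} (e0 : ℤ) (u v x : Fin n → Bool) : ℝ :=
  if (∀ k, u k = v k → x k = u k) ∧ Pa x = e0 then 1 else 0

/-- the vertices of one parity in a face average to the centre -/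
theorem even_average {n : ℕ} (e0 : ℤ) (u v : Fin n → Bool) (h2 : 2 ≤ hammingDist u v) (i : Fin n) :
    2 * ∑ x : Fin n → Bool, evg e0 u v x * vtx x i =
      (∑ x : Fin n → Bool, evg e0 u v x) * (vtx u i + vtx v i) := by
  classical
  set g : (Fin n → Bool) → ℝ := evg e0 u v with hg
  by_cases hi : u i = v i
  · have e : vtx v i = vtx u i := by unfold vtx; rw [hi]
    rw [e, Finset.sum_mul, Finset.mul_sum]
    refine Finset.sum_congr rfl fun x _ => ?_
    by_cases hx : g x = 0
    · rw [hx]; ring
    · have : (∀ k, u k = v k → x k = u k) ∧ Pa x = e0 := by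
        by_contra hc
        exact hx (by rw [hg]; exact if_neg hc)
      have e2 : vtx x i = vtx u i := by unfold vtx; rw [this.1 i hi]
      rw [e2]; ring
  · have e : vtx u i + vtx v i = 1 := by
      unfold vtx
      cases hu : u i <;> cases hv : v i <;> simp_all
    rw [e, mul_one]
    -- another free coordinate
    obtain ⟨j, hj, hji⟩ : ∃ j, u j ≠ v j ∧ j ≠ i := by
      by_contra hc
      push Not at hc
      have : hammingDist u v ≤ 1 := by
        unfold hammingDist
        rw [Finset.card_le_one]
        intro a ha b hb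
        have ha' := (Finset.mem_filter.1 ha).2
        have hb' := (Finset.mem_filter.1 hb).2
        rw [hc a ha', hc b hb']
      omega
    have hgf : ∀ x, g (flip2 i j x) = g x := by
      intro x
      rw [hg]
      unfold evg
      rw [Pa_flip2 (Ne.symm hji)]
      have : (∀ k, u k = v k → flip2 i j x k = u k) ↔ (∀ k, u k = v k → x k = u k) := by
        refine forall_congr' fun k => ?_
        by_cases hk : u k = v k
        · have h3 : k ≠ i := fun h => hi (h ▸ hk)
          have h4 : k ≠ j := fun h => hj (h ▸ hk)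
          unfold flip2
          rw [if_neg h3, if_neg h4]
        · simp [hk]
      simp only [this]
    have hvf : ∀ x : Fin n → Bool, vtx (flip2 i j x) i = 1 - vtx x i := by
      intro x
      unfold vtx flip2
      rw [if_pos rfl]
      cases x i <;> simp
    have key : ∑ x, g x * vtx x i = ∑ x, g x * (1 - vtx x i) := by
      let e : (Fin n → Bool) ≃ (Fin n → Bool) := ⟨flip2 i j, flip2 i j, flip2_flip2 i j,
        flip2_flip2 i j⟩
      rw [← e.sum_comp]
      refine Finset.sum_congr rfl fun x _ => ?_
      change g (flip2 i j x) * vtx (flip2 i j x) i = _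
      rw [hgf, hvf]
    have key2 : ∑ x, g x * (1 - vtx x i) = ∑ x, g x - ∑ x, g x * vtx x i := by
      rw [← Finset.sum_sub_distrib]
      exact Finset.sum_congr rfl fun x _ => by ring
    linarith

/-- Heights that are large on one parity class: only pairs of the other class matter. -/
theorem good_of_parity {n r : ℕ} (hr : 1 ≤ r) (w : (Fin n → Bool) → ℝ) (M : ℝ) (e0 : ℤ)
    (he0 : e0 = 1 ∨ e0 = -1) (h1 : ∀ x, Pa x = e0 → w x ≤ M) (h2 : ∀ x, Pa x ≠ e0 → 2 * M < w x)
    (h3 : ∀ x, 0 ≤ w x)
    (h4 : ∀ u v, r < hammingDist u v → Pa u = e0 → Pa v = e0 → Even (hammingDist u v) →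
      ∃ (J : Type) (_ : Fintype J) (p : J → Fin n → Bool) (g : J → ℝ), (∀ j, 0 ≤ g j) ∧
      (∀ i, 2 * ∑ j, g j * vtx (p j) i = (∑ j, g j) * (vtx u i + vtx v i)) ∧
      2 * ∑ j, g j * w (p j) < (∑ j, g j) * (w u + w v)) : Good n r w := by
  classical
  intro u v huv
  by_cases hp : Pa u = e0 ∧ Pa v = e0
  · refine h4 u v huv hp.1 hp.2 ?_
    have := Pa_mul u v
    rw [hp.1, hp.2] at this
    have e1 : e0 * e0 = 1 := by rcases he0 with h | h <;> rw [h] <;> norm_num
    rw [e1] at this
    rcases Nat.even_or_odd (hammingDist u v) with h | h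
    · exact h
    · rw [h.neg_one_pow] at this; norm_num at this
  · have hd : 2 ≤ hammingDist u v := by omega
    refine ⟨Fin n → Bool, inferInstance, fun x => x, evg e0 u v, fun x => ?_,
      fun i => even_average e0 u v hd i, ?_⟩
    · unfold evg
      split_ifs <;> norm_num
    · set g : (Fin n → Bool) → ℝ := evg e0 u v with hg
      have hg0 : ∀ x, 0 ≤ g x := fun x => by rw [hg]; unfold evg; split_ifs <;> norm_num
      have e1 : ∑ x, g x * w x ≤ (∑ x, g x) * M := by
        rw [Finset.sum_mul]
        refine Finset.sum_le_sum fun x _ => ?_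
        by_cases hx : (∀ k, u k = v k → x k = u k) ∧ Pa x = e0
        · exact mul_le_mul_of_nonneg_left (h1 x hx.2) (hg0 x)
        · have : g x = 0 := if_neg hx
          rw [this]; simp
      have e2 : 2 * M < w u + w v := by
        by_cases hu : Pa u = e0
        · have hv : Pa v ≠ e0 := fun h => hp ⟨hu, h⟩
          have := h2 v hv
          have := h3 u
          linarith
        · have := h2 u hu
          have := h3 v
          linarith
      have e3 : 0 < ∑ x, g x := by
        obtain ⟨x, hx⟩ : ∃ x, (∀ k, u k = v k → x k = u k) ∧ Pa x = e0 := by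
          by_cases hu : Pa u = e0
          · exact ⟨u, fun k _ => rfl, hu⟩
          by_cases hv : Pa v = e0
          · exact ⟨v, fun k hk => hk.symm, hv⟩
          obtain ⟨i, hi⟩ : ∃ i, u i ≠ v i := by
            by_contra hc
            push Not at hc
            have : u = v := funext hc
            rw [this, hammingDist_self] at hd
            omega
          refine ⟨flip1 i u, fun k hk => ?_, ?_⟩
          · have : k ≠ i := fun h => hi (h ▸ hk)
            unfold flip1
            rw [if_neg this]
          · rw [Pa_flip1]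
            rcases Pa_eq u with h | h <;> rcases he0 with h' | h' <;> rw [h, h'] at hu <;>
              rw [h, h'] <;> first | rfl | exact absurd rfl hu
        have hx1 : g x = 1 := if_pos hx
        have := Finset.single_le_sum (f := g) (fun y _ => hg0 y) (Finset.mem_univ x)
        linarith
      have e4 := mul_lt_mul_of_pos_left e2 e3
      linarith

theorem ex_3_2 : Ex 3 2 := by
  refine ⟨fun x => if Pa x = 1 then 0 else 1, good_of_parity (by norm_num) _ 0 1 (Or.inl rfl)
    (fun x hx => by rw [if_pos hx]) (fun x hx => by rw [if_neg hx]; norm_num)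
    (fun x => by split_ifs <;> norm_num) ?_⟩
  intro u v h _ _ he
  exfalso
  have := hammingDist_le_card_fintype (x := u) (y := v)
  rw [Fintype.card_fin] at this
  have h3 : hammingDist u v = 3 := by omega
  rw [h3] at he
  exact absurd he (by decide)

/-- the equality set -/
theorem card_eq_set {n : ℕ} (u v : Fin n → Bool) :
    (Finset.univ.filter fun k => u k = v k).card + hammingDist u v = n := by
  unfold hammingDist
  have := Finset.card_filter_add_card_filter_not (s := (Finset.univ : Finset (Fin n)))
    (fun k => u k = v k)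
  rw [Finset.card_univ, Fintype.card_fin] at this
  exact this

/-- certificate for facets from a normalised Hadamard matrix -/
theorem facet_cert {n : ℕ} (A : Fin (n + 1) → Fin n → Bool) (hA1 : ∀ i, ∑ a, sgn (A a i) = 0)
    (hA2 : ∀ i l, i ≠ l → ∑ a, sgn (A a i) * sgn (A a l) = 0) (w : (Fin n → Bool) → ℝ)
    (hw : ∀ a, w (A a) = 0) (u v : Fin n → Bool) (hd : hammingDist u v + 1 = n)
    (hpos : 0 < w u + w v) :
    ∃ (J : Type) (_ : Fintype J) (p : J → Fin n → Bool) (g : J → ℝ), (∀ j, 0 ≤ g j) ∧
      (∀ i, 2 * ∑ j, g j * vtx (p j) i = (∑ j, g j) * (vtx u i + vtx v i)) ∧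
      2 * ∑ j, g j * w (p j) < (∑ j, g j) * (w u + w v) := by
  classical
  have h1 := card_eq_set u v
  obtain ⟨i, hi⟩ := Finset.card_eq_one.1 (by omega : (Finset.univ.filter fun k => u k = v k).card = 1)
  have hmem : ∀ k, u k = v k ↔ k = i := by
    intro k
    have : k ∈ Finset.univ.filter (fun k => u k = v k) ↔ k ∈ ({i} : Finset (Fin n)) := by rw [hi]
    simpa using this
  have hsum : ∑ a, ((1 + sgn (u i) * sgn (A a i) : ℤ) : ℝ) = n + 1 := by
    rw [← Int.cast_sum, Finset.sum_add_distrib, ← Finset.mul_sum, hA1]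
    simp
  refine ⟨Fin (n + 1), inferInstance, A, fun a => ((1 + sgn (u i) * sgn (A a i) : ℤ) : ℝ),
    fun a => ?_, fun l => ?_, ?_⟩
  · have : (0 : ℤ) ≤ 1 + sgn (u i) * sgn (A a i) := by
      cases u i <;> cases A a i <;> simp [sgn]
    dsimp only
    exact_mod_cast this
  · by_cases hl : l = i
    · subst hl
      have e : vtx v l = vtx u l := by unfold vtx; rw [(hmem l).2 rfl]
      rw [e, Finset.sum_mul, Finset.mul_sum]
      refine Finset.sum_congr rfl fun a _ => ?_
      unfold vtx
      cases hb1 : u l <;> cases hb2 : A a l <;> simp [sgn, hb1, hb2]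
      ring
    · have e : vtx u l + vtx v l = 1 := by
        have : u l ≠ v l := fun h => hl ((hmem l).1 h)
        unfold vtx
        cases hu : u l <;> cases hv : v l <;> simp_all
      rw [e, mul_one]
      have e2 : ∑ a, ((1 + sgn (u i) * sgn (A a i) : ℤ) : ℝ) * (2 * vtx (A a) l - 1) = 0 := by
        have e3 : ∀ a, ((1 + sgn (u i) * sgn (A a i) : ℤ) : ℝ) * (2 * vtx (A a) l - 1) =
            ((sgn (A a l) + sgn (u i) * (sgn (A a i) * sgn (A a l)) : ℤ) : ℝ) := by
          intro a
          rw [← sgn_vtx]; push_cast; ring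
        simp only [e3]
        rw [← Int.cast_sum, Finset.sum_add_distrib, ← Finset.mul_sum, hA1,
          hA2 i l (Ne.symm hl)]
        simp
      simp only [mul_sub, mul_one, Finset.sum_sub_distrib] at e2
      have e4 : ∑ a, ((1 + sgn (u i) * sgn (A a i) : ℤ) : ℝ) * (2 * vtx (A a) l) =
          2 * ∑ a, ((1 + sgn (u i) * sgn (A a i) : ℤ) : ℝ) * vtx (A a) l := by
        rw [Finset.mul_sum]
        exact Finset.sum_congr rfl fun a _ => by ring
      linarith
  · simp only [hw, mul_zero, Finset.sum_const_zero]
    rw [hsum]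
    positivity

/-- the simplex code of length 7 -/
def A7 (a : Fin 8) (k : Fin 7) : Bool :=
  (a.val == 0) || ([1, 2, 4].contains ((k.val + 8 - a.val) % 7))

theorem ex_7_4 : Ex 7 4 := by
  classical
  have hA1 : ∀ i, ∑ a, sgn (A7 a i) = 0 := by decide
  have hA2 : ∀ i l, i ≠ l → ∑ a, sgn (A7 a i) * sgn (A7 a l) = 0 := by decide
  have hA3 : ∀ a, Pa (A7 a) = 1 := by decide
  have hA4 : ∀ a b, hammingDist (A7 a) (A7 b) ≤ 4 := by decide
  set w : (Fin 7 → Bool) → ℝ := fun x => if ∃ a, A7 a = x then 0 else if Pa x = 1 then 1 else 3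
    with hw
  refine ⟨w, good_of_parity (by norm_num) w 1 1 (Or.inl rfl) ?_ ?_ ?_ ?_⟩
  · intro x hx
    simp only [hw, if_pos hx]
    split_ifs <;> norm_num
  · intro x hx
    have : ¬ ∃ a, A7 a = x := by
      rintro ⟨a, rfl⟩
      exact hx (hA3 a)
    simp only [hw, if_neg hx, if_neg this]; norm_num
  · intro x
    simp only [hw]
    split_ifs <;> norm_num
  · intro u v h hu hv he
    have h7 := hammingDist_le_card_fintype (x := u) (y := v)
    rw [Fintype.card_fin] at h7
    have h6 : hammingDist u v = 6 := by
      have : hammingDist u v = 5 ∨ hammingDist u v = 6 ∨ hammingDist u v = 7 := by omega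
      rcases this with h5 | h5 | h5
      · rw [h5] at he; exact absurd he (by decide)
      · exact h5
      · rw [h5] at he; exact absurd he (by decide)
    refine facet_cert A7 hA1 hA2 w (fun a => ?_) u v (by rw [h6]) ?_
    · simp only [hw]; rw [if_pos ⟨a, rfl⟩]
    · have hnn : ∀ x, 0 ≤ w x := fun x => by simp only [hw]; split_ifs <;> norm_num
      by_contra hc
      have e1 : w u = 0 := le_antisymm (by have := hnn v; linarith) (hnn u)
      have e2 : w v = 0 := le_antisymm (by have := hnn u; linarith) (hnn v)
      have key : ∀ x, w x = 0 → ∃ a, A7 a = x := by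
        intro x hx
        by_contra hne
        simp only [hw, if_neg hne] at hx
        split_ifs at hx <;> norm_num at hx
      obtain ⟨a, ha⟩ := key u e1
      obtain ⟨b, hb⟩ := key v e2
      have := hA4 a b
      rw [ha, hb] at this
      omega

end Pool.Agent.Lib.H17.VR
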