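import Pool.Agent.Lib.H17.VR.Defs

/-!
# Upper bound: surjectivity forces `n < 2r`, and `n = 2r - 1` gives a Hadamard matrix
-/

namespace Pool.Agent.Lib.H17.VR

open Finset
open scoped BigOperators

/-- signs -/
def sgn (b : Bool) : ℤ := if b then 1 else -1

theorem sgn_mul_self (b : Bool) : sgn b * sgn b = 1 := by cases b <;> rfl

/-- inner product of sign vectors -/
def ip {n : ℕ} (u v : Fin n → Bool) : ℤ := ∑ i, sgn (u i) * sgn (v i)

theorem ip_eq {n : ℕ} (u v : Fin n → Bool) : ip u v = n - 2 * (hammingDist u v : ℤ) := by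
  unfold ip hammingDist
  have h : ∀ i, sgn (u i) * sgn (v i) = 1 - 2 * (if u i ≠ v i then 1 else 0) := by
    intro i
    cases u i <;> cases v i <;> simp [sgn]
  rw [Finset.sum_congr rfl fun i _ => h i, Finset.sum_sub_distrib, ← Finset.mul_sum,
    Finset.sum_boole]
  simp

theorem ip_self {n : ℕ} (u : Fin n → Bool) : ip u u = n := by
  rw [ip_eq, hammingDist_self]; simp

theorem sgn_vtx {n : ℕ} (v : Fin n → Bool) (i : Fin n) : (sgn (v i) : ℝ) = 2 * vtx v i - 1 := by
  unfold vtx sgn
  cases v i <;> norm_num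

/-- the quadratic form vanishes at the centre -/
theorem centre_form {n : ℕ} {J : Type*} [Fintype J] (v : J → Fin n → Bool) (l : J → ℝ)
    (h1 : ∑ j, l j = 1) (h2 : ∀ i, ∑ j, l j * vtx (v j) i = 1 / 2) :
    ∑ j, ∑ k, l j * l k * (ip (v j) (v k) : ℝ) = 0 := by
  have h3 : ∀ i, ∑ j, l j * (sgn (v j i) : ℝ) = 0 := by
    intro i
    have : ∑ j, l j * (sgn (v j i) : ℝ) = 2 * ∑ j, l j * vtx (v j) i - ∑ j, l j := by
      rw [Finset.mul_sum, ← Finset.sum_sub_distrib]
      exact Finset.sum_congr rfl fun j _ => by rw [sgn_vtx]; ring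
    rw [this, h1, h2]; norm_num
  have h4 : ∑ j, ∑ k, l j * l k * (ip (v j) (v k) : ℝ) =
      ∑ i, (∑ j, l j * (sgn (v j i) : ℝ)) * (∑ k, l k * (sgn (v k i) : ℝ)) := by
    simp only [Finset.sum_mul_sum]
    rw [Finset.sum_comm (s := (Finset.univ : Finset (Fin n)))]
    refine Finset.sum_congr rfl fun j _ => ?_
    rw [Finset.sum_comm (s := (Finset.univ : Finset (Fin n)))]
    refine Finset.sum_congr rfl fun k _ => ?_
    unfold ip
    push_cast
    rw [Finset.mul_sum]
    exact Finset.sum_congr rfl fun i _ => by ring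
  rw [h4]
  exact Finset.sum_eq_zero fun i _ => by rw [h3 i, zero_mul]

theorem surj_centre {n r : ℕ} (h : IsSurj n r) : ∃ x : VRPoint n r, ∀ i,
    ∑ v, x.wt v * vtx v i = 1 / 2 := by
  obtain ⟨x, hx⟩ := h (fun _ => 1 / 2) ⟨fun i => by norm_num, fun i => by norm_num⟩
  refine ⟨x, fun i => ?_⟩
  have := congrFun hx i
  unfold fmap at this
  rw [Finset.sum_apply] at this
  exact this

theorem surj_lt {n r : ℕ} (hn : 1 ≤ n) (h : IsSurj n r) : n + 1 ≤ 2 * r := by
  by_contra hcon
  obtain ⟨x, hx⟩ := surj_centre h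
  have h0 := centre_form (fun v => v) x.wt x.sum_one hx
  have hpos : ∀ u v, 0 ≤ x.wt u * x.wt v * (ip u v : ℝ) := by
    intro u v
    by_cases hu : x.wt u = 0
    · rw [hu]; simp
    by_cases hv : x.wt v = 0
    · rw [hv]; simp
    have hd := x.diam u v hu hv
    have hip : 0 ≤ ip u v := by rw [ip_eq]; omega
    exact mul_nonneg (mul_nonneg (x.nonneg u) (x.nonneg v)) (by exact_mod_cast hip)
  obtain ⟨u, hu⟩ : ∃ u, x.wt u ≠ 0 := by
    by_contra hc
    push Not at hc
    have := x.sum_one
    rw [Finset.sum_eq_zero fun v _ => hc v] at this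
    norm_num at this
  have h1 : x.wt u * x.wt u * (ip u u : ℝ) ≤ 0 := by
    rw [← h0]
    refine le_trans ?_ (Finset.single_le_sum (f := fun j => ∑ k, x.wt j * x.wt k * (ip j k : ℝ))
      (fun j _ => Finset.sum_nonneg fun k _ => hpos j k) (Finset.mem_univ u))
    exact Finset.single_le_sum (f := fun k => x.wt u * x.wt k * (ip u k : ℝ))
      (fun k _ => hpos u k) (Finset.mem_univ u)
  rw [ip_self] at h1
  have h2 : 0 < x.wt u * x.wt u * ((n : ℤ) : ℝ) := by
    have : 0 < x.wt u := lt_of_le_of_ne (x.nonneg u) (Ne.symm hu)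
    have : (0 : ℝ) < ((n : ℤ) : ℝ) := by exact_mod_cast hn
    positivity
  linarith

theorem surj_hadamard {n r : ℕ} (hn : n + 1 = 2 * r) (h : IsSurj n r) :
    ∃ H : Matrix (Fin (2 * r)) (Fin (2 * r)) ℤ, H.IsHadamard := by
  classical
  obtain ⟨x, hx⟩ := surj_centre h
  -- Caratheodory
  have hmem : (fun _ => 1 / 2 : Fin n → ℝ) ∈ convexHull ℝ (vtx '' {v | x.wt v ≠ 0}) := by
    have e : (fun _ => 1 / 2 : Fin n → ℝ) = ∑ v ∈ Finset.univ.filter (fun v => x.wt v ≠ 0),
        x.wt v • vtx v := by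
      funext i
      rw [Finset.sum_apply, ← hx i, Finset.sum_filter]
      refine Finset.sum_congr rfl fun v _ => ?_
      split_ifs with h1
      · rfl
      · push Not at h1
        rw [h1]; simp
    rw [e]
    refine (convex_convexHull ℝ _).sum_mem (fun v _ => x.nonneg v) ?_ fun v hv =>
      subset_convexHull ℝ _ ⟨v, (Finset.mem_filter.1 hv).2, rfl⟩
    rw [← x.sum_one, Finset.sum_filter]
    refine Finset.sum_congr rfl fun v _ => ?_
    split_ifs with h1
    · rfl
    · push Not at h1; exact h1.symm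
  obtain ⟨J, _, z, l, hz, hind, hl0, hl1, hl2⟩ := eq_pos_convex_span_of_mem_convexHull hmem
  choose v hv hvz using fun j => hz ⟨j, rfl⟩
  have hcard : Fintype.card J ≤ n + 1 := by
    have := hind.card_le_finrank_succ
    refine this.trans ?_
    have h1 : Module.finrank ℝ (vectorSpan ℝ (Set.range z)) ≤ Module.finrank ℝ (Fin n → ℝ) :=
      Submodule.finrank_le _
    rw [Module.finrank_fintype_fun_eq_card, Fintype.card_fin] at h1
    omega
  have hl2' : ∀ i, ∑ j, l j * vtx (v j) i = 1 / 2 := by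
    intro i
    have := congrFun hl2 i
    rw [Finset.sum_apply] at this
    rw [← this]
    exact Finset.sum_congr rfl fun j _ => by rw [← hvz j]; rfl
  have hinj : Function.Injective v := by
    intro j k hjk
    apply hind.injective
    rw [← hvz j, ← hvz k, hjk]
  have h0 := centre_form v l hl1 hl2'
  have hip : ∀ j k, j ≠ k → -1 ≤ ip (v j) (v k) := by
    intro j k _
    rw [ip_eq]
    have := x.diam (v j) (v k) (hv j) (hv k)
    omega
  -- deviations
  set dev : J → J → ℝ := fun j k => (ip (v j) (v k) : ℝ) + 1 - (if j = k then (n + 1 : ℝ) else 0)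
    with hdev
  have hdev0 : ∀ j k, 0 ≤ dev j k := by
    intro j k
    rw [hdev]
    simp only
    by_cases hjk : j = k
    · subst hjk
      rw [if_pos rfl, ip_self]
      push_cast; linarith
    · rw [if_neg hjk]
      have : (-1 : ℝ) ≤ (ip (v j) (v k) : ℝ) := by exact_mod_cast hip j k hjk
      linarith
  have hsum : ∑ j, ∑ k, l j * l k * dev j k = 1 - (n + 1) * ∑ j, l j ^ 2 := by
    have e1 : ∀ j k, l j * l k * dev j k = l j * l k * (ip (v j) (v k) : ℝ) + (l j * l k -
        (if j = k then (n + 1 : ℝ) * l j ^ 2 else 0)) := by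
      intro j k
      rw [hdev]; simp only
      split_ifs with hjk
      · subst hjk; ring
      · ring
    simp only [e1, Finset.sum_add_distrib, Finset.sum_sub_distrib]
    rw [h0]
    have e2 : ∑ j, ∑ k, l j * l k = 1 := by
      rw [← Finset.sum_mul_sum, hl1, one_mul]
    have e3 : ∑ j, ∑ k, (if j = k then (n + 1 : ℝ) * l j ^ 2 else 0) =
        (n + 1) * ∑ j, l j ^ 2 := by
      rw [Finset.mul_sum]
      refine Finset.sum_congr rfl fun j _ => ?_
      rw [Finset.sum_ite_eq]; simp
    rw [e2, e3]; ring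
  have hcs : 1 ≤ (Fintype.card J : ℝ) * ∑ j, l j ^ 2 := by
    have := sq_sum_le_card_mul_sum_sq (s := (Finset.univ : Finset J)) (f := l)
    rw [hl1, one_pow] at this
    exact this
  have hsq0 : 0 ≤ ∑ j, l j ^ 2 := Finset.sum_nonneg fun j _ => sq_nonneg _
  have hterm : ∀ j k, 0 ≤ l j * l k * dev j k := fun j k =>
    mul_nonneg (mul_nonneg (hl0 j).le (hl0 k).le) (hdev0 j k)
  have hnn : 0 ≤ ∑ j, ∑ k, l j * l k * dev j k :=
    Finset.sum_nonneg fun j _ => Finset.sum_nonneg fun k _ => hterm j k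
  rw [hsum] at hnn
  have hcardR : (Fintype.card J : ℝ) ≤ n + 1 := by exact_mod_cast hcard
  have hle : (Fintype.card J : ℝ) * ∑ j, l j ^ 2 ≤ (n + 1) * ∑ j, l j ^ 2 :=
    mul_le_mul_of_nonneg_right hcardR hsq0
  have heq : (n + 1 : ℝ) * ∑ j, l j ^ 2 = 1 := le_antisymm (by linarith) (by linarith)
  have hcardeq : Fintype.card J = n + 1 := by
    have hpos : 0 < ∑ j, l j ^ 2 := by
      by_contra hc
      have : ∑ j, l j ^ 2 = 0 := le_antisymm (by linarith) hsq0
      rw [this] at heq; norm_num at heq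
    have : (n + 1 : ℝ) ≤ Fintype.card J := by
      have h5 : (n + 1 : ℝ) * ∑ j, l j ^ 2 ≤ (Fintype.card J : ℝ) * ∑ j, l j ^ 2 := by linarith
      exact le_of_mul_le_mul_right h5 hpos
    have h6 : n + 1 ≤ Fintype.card J := by exact_mod_cast this
    omega
  have hz0 : ∀ j k, dev j k = 0 := by
    have hs0 : ∑ j, ∑ k, l j * l k * dev j k = 0 := by rw [hsum, heq]; ring
    intro j k
    have h6 := (Finset.sum_eq_zero_iff_of_nonneg (fun j _ =>
      Finset.sum_nonneg fun k _ => hterm j k)).1 hs0 j (Finset.mem_univ j)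
    have h7 := (Finset.sum_eq_zero_iff_of_nonneg (fun k _ => hterm j k)).1 h6 k (Finset.mem_univ k)
    rcases mul_eq_zero.1 h7 with h8 | h8
    · exact absurd h8 (mul_pos (hl0 j) (hl0 k)).ne'
    · exact h8
  have hip' : ∀ j k, j ≠ k → ip (v j) (v k) = -1 := by
    intro j k hjk
    have := hz0 j k
    rw [hdev] at this
    simp only at this
    rw [if_neg hjk, sub_zero] at this
    have h9 : ((ip (v j) (v k) + 1 : ℤ) : ℝ) = 0 := by push_cast; exact this
    have : ip (v j) (v k) + 1 = 0 := by exact_mod_cast h9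
    omega
  -- the Hadamard matrix
  obtain ⟨e⟩ : Nonempty (J ≃ Option (Fin n)) := ⟨Fintype.equivOfCardEq (by simp [hcardeq])⟩
  obtain ⟨e'⟩ : Nonempty (Option (Fin n) ≃ Fin (2 * r)) :=
    ⟨Fintype.equivOfCardEq (by simp [hn])⟩
  set M : Matrix (Option (Fin n)) (Option (Fin n)) ℤ :=
    Matrix.of fun a b => b.elim 1 (fun i => sgn (v (e.symm a) i)) with hM
  have hMH : M.IsHadamard := by
    apply Matrix.IsHadamard.of_mul_conjTranspose
    · intro a b
      rw [hM, Matrix.of_apply]
      have : ∀ c : Bool, sgn c ∈ unitary ℤ := by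
        intro c
        rw [Unitary.mem_iff]
        cases c <;> simp [sgn]
      cases b with
      | none => simp
      | some i => exact this _
    · ext a b
      rw [Matrix.mul_apply, Matrix.smul_apply, Fintype.sum_option]
      simp only [hM, Matrix.conjTranspose_apply, Matrix.of_apply, Option.elim_none,
        Option.elim_some, star_trivial, mul_one]
      have h9 : ∑ i, sgn (v (e.symm a) i) * sgn (v (e.symm b) i) =
        ip (v (e.symm a)) (v (e.symm b)) := rfl
      rw [h9]
      by_cases hab : a = b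
      · subst hab
        rw [ip_self, Matrix.one_apply_eq]
        simp only [Fintype.card_option, Fintype.card_fin, smul_eq_mul, mul_one]
        push_cast; ring
      · rw [hip' _ _ (fun h' => hab (e.symm.injective h')), Matrix.one_apply_ne hab]
        simp
    · simp only [Fintype.card_option, Fintype.card_fin]
      exact IsRegular.of_ne_zero (by positivity)
  exact ⟨_, hMH.reindex e' e'⟩

/-- the order of a Hadamard matrix is divisible by four -/
theorem four_dvd {r : ℕ} (hr : 2 ≤ r) {H : Matrix (Fin (2 * r)) (Fin (2 * r)) ℤ}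
    (h : H.IsHadamard) : 4 ∣ 2 * r := by
  have := h.four_dvd_card (by simp; omega)
  simpa using this

end Pool.Agent.Lib.H17.VR
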