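import Pool.Agent.Lib.H17.VR.Cube
import Pool.Agent.Lib.H17.VR.Upper

/-!
# Products, faces and even vertices
-/

namespace Pool.Agent.Lib.H17.VR

open Finset
open scoped BigOperators

theorem Good.of_le {n r : ℕ} (h : n ≤ r) (w : (Fin n → Bool) → ℝ) : Good n r w := by
  intro u v huv
  have : hammingDist u v ≤ n := by
    have := hammingDist_le_card_fintype (x := u) (y := v)
    simpa using this
  omega

/-- two-term families -/
theorem half_family {m : ℕ} (u v : Fin m → Bool) (f : (Fin m → Bool) → ℝ) :
    ∑ b : Bool, f (if b then u else v) = f u + f v := by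
  simp

theorem dist_split {n m : ℕ} (u v : Fin (n + m) → Bool) : hammingDist u v =
    hammingDist (fun i => u (Fin.castAdd m i)) (fun i => v (Fin.castAdd m i)) +
      hammingDist (fun i => u (Fin.natAdd n i)) (fun i => v (Fin.natAdd n i)) := by
  unfold hammingDist
  simp only [Finset.card_filter]
  rw [Fin.sum_univ_add]

/-- heights add on products -/
theorem Good.prod {n m r s : ℕ} {w : (Fin n → Bool) → ℝ} {w' : (Fin m → Bool) → ℝ}
    (h : Good n r w) (h' : Good m s w') :
    Good (n + m) (r + s) (fun x => w (fun i => x (Fin.castAdd m i)) +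
      w' (fun i => x (Fin.natAdd n i))) := by
  intro u v huv
  rw [dist_split] at huv
  set u1 : Fin n → Bool := fun i => u (Fin.castAdd m i)
  set v1 : Fin n → Bool := fun i => v (Fin.castAdd m i)
  set u2 : Fin m → Bool := fun i => u (Fin.natAdd n i)
  set v2 : Fin m → Bool := fun i => v (Fin.natAdd n i)
  by_cases hc : r < hammingDist u1 v1
  · obtain ⟨J, _, p, g, hg1, hg2, hg3⟩ := h u1 v1 hc
    refine ⟨J × Bool, inferInstance, fun j => Fin.append (p j.1) (if j.2 then u2 else v2),
      fun j => g j.1, fun j => hg1 j.1, fun i => ?_, ?_⟩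
    · simp only [Fintype.sum_prod_type, Finset.sum_const, Finset.card_univ, Fintype.card_bool,
        nsmul_eq_mul, Fintype.sum_bool, if_true, Bool.false_eq_true, if_false]
      refine Fin.addCases (fun i => ?_) (fun i => ?_) i
      · have := hg2 i
        simp only [vtx, Fin.append_left] at this ⊢
        rw [Finset.sum_add_distrib, ← Finset.mul_sum]
        push_cast
        linarith
      · simp only [vtx, Fin.append_right]
        rw [Finset.sum_add_distrib, ← Finset.sum_mul, ← Finset.sum_mul, ← Finset.mul_sum]
        push_cast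
        ring
    · simp only [Fintype.sum_prod_type, Finset.sum_const, Finset.card_univ, Fintype.card_bool,
        nsmul_eq_mul, Fintype.sum_bool, if_true, Bool.false_eq_true, if_false, Fin.append_left,
        Fin.append_right]
      have e1 : ∑ x, (g x * (w (fun i => p x i) + w' (fun i => u2 i)) +
          g x * (w (fun i => p x i) + w' (fun i => v2 i))) =
          2 * ∑ x, g x * w (p x) + (∑ x, g x) * (w' u2 + w' v2) := by
        rw [Finset.mul_sum, Finset.sum_mul, ← Finset.sum_add_distrib]
        exact Finset.sum_congr rfl fun x _ => by ring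
      rw [e1, ← Finset.mul_sum]
      have e2 : w (fun i => u (Fin.castAdd m i)) = w u1 := rfl
      have e3 : w (fun i => v (Fin.castAdd m i)) = w v1 := rfl
      have e4 : w' (fun i => u (Fin.natAdd n i)) = w' u2 := rfl
      have e5 : w' (fun i => v (Fin.natAdd n i)) = w' v2 := rfl
      rw [e2, e3, e4, e5]
      push_cast
      linarith
  · obtain ⟨J, _, p, g, hg1, hg2, hg3⟩ := h' u2 v2 (by omega)
    refine ⟨J × Bool, inferInstance, fun j => Fin.append (if j.2 then u1 else v1) (p j.1),
      fun j => g j.1, fun j => hg1 j.1, fun i => ?_, ?_⟩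
    · simp only [Fintype.sum_prod_type, Finset.sum_const, Finset.card_univ, Fintype.card_bool,
        nsmul_eq_mul, Fintype.sum_bool, if_true, Bool.false_eq_true, if_false]
      refine Fin.addCases (fun i => ?_) (fun i => ?_) i
      · simp only [vtx, Fin.append_left]
        rw [Finset.sum_add_distrib, ← Finset.sum_mul, ← Finset.sum_mul, ← Finset.mul_sum]
        push_cast
        ring
      · have := hg2 i
        simp only [vtx, Fin.append_right] at this ⊢
        rw [Finset.sum_add_distrib, ← Finset.mul_sum]
        push_cast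
        linarith
    · simp only [Fintype.sum_prod_type, Finset.sum_const, Finset.card_univ, Fintype.card_bool,
        nsmul_eq_mul, Fintype.sum_bool, if_true, Bool.false_eq_true, if_false, Fin.append_left,
        Fin.append_right]
      have e1 : ∑ x, (g x * (w (fun i => u1 i) + w' (fun i => p x i)) +
          g x * (w (fun i => v1 i) + w' (fun i => p x i))) =
          2 * ∑ x, g x * w' (p x) + (∑ x, g x) * (w u1 + w v1) := by
        rw [Finset.mul_sum, Finset.sum_mul, ← Finset.sum_add_distrib]
        exact Finset.sum_congr rfl fun x _ => by ring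
      rw [e1, ← Finset.mul_sum]
      have e2 : w (fun i => u (Fin.castAdd m i)) = w u1 := rfl
      have e3 : w (fun i => v (Fin.castAdd m i)) = w v1 := rfl
      have e4 : w' (fun i => u (Fin.natAdd n i)) = w' u2 := rfl
      have e5 : w' (fun i => v (Fin.natAdd n i)) = w' v2 := rfl
      rw [e2, e3, e4, e5]
      push_cast
      linarith

/-- restriction to a facet -/
theorem Good.face {n r : ℕ} {w : (Fin (n + 1) → Bool) → ℝ} (h : Good (n + 1) r w) :
    Good n r (fun x => w (Fin.snoc x false : Fin (n + 1) → Bool)) := by
  classical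
  intro u v huv
  have hd : hammingDist (Fin.snoc u false : Fin (n + 1) → Bool)
      (Fin.snoc v false : Fin (n + 1) → Bool) = hammingDist u v := by
    unfold hammingDist
    simp only [Finset.card_filter]
    rw [Fin.sum_univ_castSucc]
    simp
  obtain ⟨J, _, p, g, hg1, hg2, hg3⟩ := h (Fin.snoc u false) (Fin.snoc v false) (by rw [hd]; exact huv)
  have hlast : ∀ j, g j ≠ 0 → p j (Fin.last n) = false := by
    intro j hj
    have h1 := hg2 (Fin.last n)
    simp only [vtx, Fin.snoc_last, Bool.false_eq_true, if_false, add_zero, mul_zero] at h1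
    have h2 : ∑ j, g j * (if p j (Fin.last n) = true then (1 : ℝ) else 0) = 0 := by linarith
    have h3 := (Finset.sum_eq_zero_iff_of_nonneg (fun j _ => mul_nonneg (hg1 j) (by
      split_ifs <;> norm_num))).1 h2 j (Finset.mem_univ j)
    rcases mul_eq_zero.1 h3 with h4 | h4
    · exact absurd h4 hj
    · cases hp : p j (Fin.last n)
      · rfl
      · rw [hp] at h4; simp at h4
  have hp : ∀ j, g j ≠ 0 → (Fin.snoc (fun i : Fin n => p j i.castSucc) false : Fin (n + 1) → Bool) =
      p j := by
    intro j hj
    funext i
    refine Fin.lastCases ?_ (fun i => ?_) i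
    · rw [Fin.snoc_last, hlast j hj]
    · rw [Fin.snoc_castSucc]
  refine ⟨J, inferInstance, fun j i => p j i.castSucc, g, hg1, fun i => ?_, ?_⟩
  · have := hg2 i.castSucc
    simp only [vtx, Fin.snoc_castSucc] at this ⊢
    exact this
  · have e : ∑ j, g j * w (Fin.snoc (fun i : Fin n => p j i.castSucc) false : Fin (n + 1) → Bool) =
        ∑ j, g j * w (p j) := by
      refine Finset.sum_congr rfl fun j _ => ?_
      by_cases hj : g j = 0
      · rw [hj]; ring
      · rw [hp j hj]
    rw [e]; exact hg3

/-- regular triangulations of small diameter exist -/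
def Ex (n r : ℕ) : Prop := ∃ w, Good n r w

theorem Ex.prod {n m r s : ℕ} (h : Ex n r) (h' : Ex m s) : Ex (n + m) (r + s) := by
  obtain ⟨w, hw⟩ := h
  obtain ⟨w', hw'⟩ := h'
  exact ⟨_, hw.prod hw'⟩

theorem Ex.of_le {n r : ℕ} (h : n ≤ r) : Ex n r := ⟨fun _ => 0, Good.of_le h _⟩

theorem Ex.mono_dim {n m r : ℕ} (h : Ex n r) (hm : m ≤ n) : Ex m r := by
  induction n with
  | zero =>
    have : m = 0 := by omega
    rw [this]; exact h
  | succ n ih =>
    rcases Nat.lt_or_ge m (n + 1) with h1 | h1
    · obtain ⟨w, hw⟩ := h
      exact ih ⟨_, hw.face⟩ (by omega)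
    · have : m = n + 1 := by omega
      rw [this]; exact h

theorem Ex.hasTri {n r : ℕ} (h : Ex n r) : HasTri n r := by
  obtain ⟨w, hw⟩ := h
  exact hw.hasTri

end Pool.Agent.Lib.H17.VR
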