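import Mathlib

/-!
# Regular triangulations of point configurations

`V` finite, `P : V → ℝ^n`, heights `w : V → ℝ`.  For generic heights close to `w` the lower hull
gives a triangulation of the convex hull of the points.
-/

namespace Pool.Agent.Lib.H17.VR

open Finset Filter Topology
open scoped BigOperators

/-- affine functions on `ℝ^n` -/
noncomputable def ev {n : ℕ} (a : Option (Fin n) → ℝ) (x : Fin n → ℝ) : ℝ :=
  a none + ∑ i, a (some i) * x i

section

variable {n : ℕ} {V : Type} [Fintype V] [DecidableEq V] (P : V → Fin n → ℝ)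

/-- affine dependency -/
def Dep (d : V → ℝ) : Prop := ∑ v, d v = 0 ∧ ∀ i, ∑ v, d v * P v i = 0

/-- affine independence of a finite set of the points -/
def Indep (S : Finset V) : Prop := ∀ d : V → ℝ, (∀ v, v ∉ S → d v = 0) → Dep P d → d = 0

variable {P}

theorem sum_ev (d : V → ℝ) (a : Option (Fin n) → ℝ) :
    ∑ v, d v * ev a (P v) = a none * ∑ v, d v + ∑ i, a (some i) * ∑ v, d v * P v i := by
  unfold ev
  simp only [mul_add, Finset.sum_add_distrib, Finset.mul_sum]
  rw [Finset.sum_comm]
  congr 1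
  · exact Finset.sum_congr rfl fun v _ => mul_comm _ _
  · refine Finset.sum_congr rfl fun i _ => Finset.sum_congr rfl fun v _ => ?_
    ring

theorem Dep.sum_ev {d : V → ℝ} (hd : Dep P d) (a : Option (Fin n) → ℝ) :
    ∑ v, d v * ev a (P v) = 0 := by
  rw [VR.sum_ev, hd.1, mul_zero, zero_add]
  exact Finset.sum_eq_zero fun i _ => by rw [hd.2 i, mul_zero]

/-- `x` is the convex combination of the points with coefficients `l` -/
def Bary (P : V → Fin n → ℝ) (l : V → ℝ) (x : Fin n → ℝ) : Prop :=
  (∀ v, 0 ≤ l v) ∧ ∑ v, l v = 1 ∧ ∀ i, ∑ v, l v * P v i = x i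

theorem Bary.sum_ev {l : V → ℝ} {x : Fin n → ℝ} (h : Bary P l x) (a : Option (Fin n) → ℝ) :
    ∑ v, l v * ev a (P v) = ev a x := by
  rw [VR.sum_ev, h.2.1, mul_one]
  unfold ev
  congr 1
  exact Finset.sum_congr rfl fun i _ => by rw [h.2.2 i]

theorem mem_hull_iff {S : Finset V} {x : Fin n → ℝ} :
    x ∈ convexHull ℝ (P '' (S : Set V)) ↔ ∃ l : V → ℝ, (∀ v, v ∉ S → l v = 0) ∧ Bary P l x := by
  classical
  constructor
  · intro h
    -- the set of such points is convex
    have hc : Convex ℝ {x : Fin n → ℝ | ∃ l : V → ℝ, (∀ v, v ∉ S → l v = 0) ∧ Bary P l x} := by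
      rintro x ⟨l, h1, h2, h3, h4⟩ y ⟨m, e1, e2, e3, e4⟩ a b ha hb hab
      refine ⟨fun v => a * l v + b * m v, fun v hv => by dsimp only; rw [h1 v hv, e1 v hv]; ring,
        fun v => add_nonneg (mul_nonneg ha (h2 v)) (mul_nonneg hb (e2 v)), ?_, fun i => ?_⟩
      · rw [Finset.sum_add_distrib, ← Finset.mul_sum, ← Finset.mul_sum, h3, e3]; linarith
      · simp only [add_mul, Finset.sum_add_distrib, mul_assoc, ← Finset.mul_sum, h4 i, e4 i]
        simp
    refine convexHull_min ?_ hc h
    rintro _ ⟨v, hv, rfl⟩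
    refine ⟨fun u => if u = v then 1 else 0, fun u hu => if_neg fun h' => hu (by rw [h']; exact hv),
      ?_, ?_, ?_⟩
    · intro u
      dsimp only
      split_ifs <;> norm_num
    · simp
    · intro i; simp
  · rintro ⟨l, h1, h2, h3, h4⟩
    have hx : x = ∑ v ∈ S, l v • P v := by
      ext i
      rw [← h4 i, Finset.sum_apply]
      simp only [Pi.smul_apply, smul_eq_mul]
      symm
      exact Finset.sum_subset (Finset.subset_univ S) fun v _ hv => by rw [h1 v hv, zero_mul]
    have hs : ∑ v ∈ S, l v = 1 := by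
      rw [← h3]
      exact Finset.sum_subset (Finset.subset_univ S) fun v _ hv => h1 v hv
    rw [hx]
    exact (convex_convexHull ℝ _).sum_mem (fun v _ => h2 v) hs
      fun v hv => subset_convexHull ℝ _ ⟨v, hv, rfl⟩

/-- a square system of evaluations -/
theorem Indep.card_le {S : Finset V} (hS : Indep P S) : S.card ≤ n + 1 := by
  classical
  by_contra hcon
  push Not at hcon
  -- linear map `ℝ^S → ℝ^{n+1}`
  let L : (S → ℝ) →ₗ[ℝ] (Option (Fin n) → ℝ) :=
    { toFun := fun d o => o.elim (∑ v : S, d v) (fun i => ∑ v : S, d v * P v i)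
      map_add' := by
        intro d d'; funext o
        cases o <;> simp [Finset.sum_add_distrib, add_mul]
      map_smul' := by
        intro c d; funext o
        cases o <;> simp [Finset.mul_sum, mul_assoc] }
  have hlt : Module.finrank ℝ (Option (Fin n) → ℝ) < Module.finrank ℝ (S → ℝ) := by
    simp only [Module.finrank_fintype_fun_eq_card, Fintype.card_option, Fintype.card_fin,
      Fintype.card_coe]
    exact hcon
  obtain ⟨d, hd, hd0⟩ := (Submodule.ne_bot_iff _).1 (LinearMap.ker_ne_bot_of_finrank_lt hlt)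
  have hL : L d = 0 := hd
  have key : ∀ f : V → ℝ, ∑ v, (if h : v ∈ S then d ⟨v, h⟩ else 0) * f v = ∑ v : S, d v * f v := by
    intro f
    rw [← Finset.sum_subset (Finset.subset_univ S) (fun v _ hv => by rw [dif_neg hv, zero_mul]),
      ← Finset.sum_coe_sort S]
    refine Finset.sum_congr rfl fun v _ => ?_
    rw [dif_pos v.2]
  have h0 := hS (fun v => if h : v ∈ S then d ⟨v, h⟩ else 0) (fun v hv => dif_neg hv) ⟨by
    have h1 := key (fun _ => 1)
    simp only [mul_one] at h1
    rw [h1]
    exact congrFun hL none, fun i => by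
    rw [key (fun v => P v i)]
    exact congrFun hL (some i)⟩
  apply hd0
  funext v
  have := congrFun h0 v
  rw [dif_pos v.2] at this
  exact this

variable (P) in
/-- evaluation matrix of `n + 1` points -/
noncomputable def EM (S : Finset V) (e : Option (Fin n) ≃ S) :
    Matrix (Option (Fin n)) (Option (Fin n)) ℝ :=
  Matrix.of fun i j => j.elim 1 (fun l => P (e i : V) l)

theorem EM_mulVec (S : Finset V) (e : Option (Fin n) ≃ S) (a : Option (Fin n) → ℝ)
    (i : Option (Fin n)) : (EM P S e).mulVec a i = ev a (P (e i : V)) := by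
  unfold Matrix.mulVec dotProduct EM ev
  rw [Fintype.sum_option]
  simp only [Matrix.of_apply, Option.elim_none, Option.elim_some, one_mul]
  congr 1
  exact Finset.sum_congr rfl fun l _ => mul_comm _ _

theorem EM_vecMul (S : Finset V) (e : Option (Fin n) ≃ S) (d : V → ℝ) (hd : ∀ v, v ∉ S → d v = 0)
    (j : Option (Fin n)) : (Matrix.vecMul (fun i => d (e i : V)) (EM P S e)) j =
      j.elim (∑ v, d v) (fun l => ∑ v, d v * P v l) := by
  have key : ∀ f : V → ℝ, ∑ i, d (e i : V) * f (e i : V) = ∑ v, d v * f v := by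
    intro f
    rw [e.sum_comp (fun s : S => d s * f s), Finset.sum_coe_sort S (fun v => d v * f v)]
    exact Finset.sum_subset (Finset.subset_univ S) fun v _ hv => by rw [hd v hv, zero_mul]
  unfold Matrix.vecMul dotProduct EM
  cases j with
  | none =>
    have := key (fun _ => 1)
    simp only [mul_one] at this
    simp only [Matrix.of_apply, Option.elim_none, mul_one]
    exact this
  | some l =>
    simp only [Matrix.of_apply, Option.elim_some]
    exact key (fun v => P v l)

theorem Indep.isUnit {S : Finset V} (hS : Indep P S) (e : Option (Fin n) ≃ S) :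
    (EM P S e).det ≠ 0 := by
  classical
  intro h0
  obtain ⟨d, hd0, hd⟩ := Matrix.exists_vecMul_eq_zero_iff.2 h0
  apply hd0
  set D : V → ℝ := fun v => if h : v ∈ S then d (e.symm ⟨v, h⟩) else 0 with hD
  have hDe : ∀ i, D (e i : V) = d i := by
    intro i
    rw [hD]
    simp only
    rw [dif_pos (e i).2]
    simp
  have h1 := EM_vecMul (P := P) S e D (fun v hv => dif_neg hv)
  have h2 : (fun i => D (e i : V)) = d := funext hDe
  rw [h2, hd] at h1
  have h3 := hS D (fun v hv => dif_neg hv) ⟨(h1 none).symm, fun i => (h1 (some i)).symm⟩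
  funext i
  rw [← hDe i, h3]; rfl

theorem exists_equiv {S : Finset V} (hc : S.card = n + 1) : Nonempty (Option (Fin n) ≃ S) := by
  refine ⟨Fintype.equivOfCardEq ?_⟩
  simp [hc]

/-- interpolation at `n + 1` affinely independent points -/
theorem Indep.interp {S : Finset V} (hS : Indep P S) (hc : S.card = n + 1) (w : V → ℝ) :
    ∃ a, ∀ v ∈ S, ev a (P v) = w v := by
  obtain ⟨e⟩ := exists_equiv hc
  have hu := (hS.isUnit e).isUnit
  refine ⟨(EM P S e)⁻¹.mulVec (fun i => w (e i : V)), fun v hv => ?_⟩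
  have h := EM_mulVec (P := P) S e ((EM P S e)⁻¹.mulVec (fun i => w (e i : V))) (e.symm ⟨v, hv⟩)
  rw [Matrix.mulVec_mulVec, Matrix.mul_nonsing_inv _ hu, Matrix.one_mulVec] at h
  simp only [Equiv.apply_symm_apply] at h
  exact h.symm

/-- barycentric coordinates -/
theorem Indep.coords {S : Finset V} (hS : Indep P S) (hc : S.card = n + 1) (x : Fin n → ℝ) :
    ∃ m : V → ℝ, (∀ v, v ∉ S → m v = 0) ∧ ∑ v, m v = 1 ∧ ∀ i, ∑ v, m v * P v i = x i := by
  classical
  obtain ⟨e⟩ := exists_equiv hc
  have hu := (hS.isUnit e).isUnit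
  set t : Option (Fin n) → ℝ := fun o => o.elim 1 x with ht
  set c := Matrix.vecMul t (EM P S e)⁻¹ with hcdef
  have h1 : Matrix.vecMul c (EM P S e) = t := by
    rw [hcdef, Matrix.vecMul_vecMul, Matrix.nonsing_inv_mul _ hu, Matrix.vecMul_one]
  set m : V → ℝ := fun v => if h : v ∈ S then c (e.symm ⟨v, h⟩) else 0 with hm
  have hme : (fun i => m (e i : V)) = c := by
    funext i
    rw [hm]
    simp only
    rw [dif_pos (e i).2]
    simp
  have h2 := EM_vecMul (P := P) S e m (fun v hv => dif_neg hv)
  rw [hme, h1] at h2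
  exact ⟨m, fun v hv => dif_neg hv, (h2 none).symm, fun i => (h2 (some i)).symm⟩

/-- fewer than `n + 1` points lie in a hyperplane -/
theorem exists_hyperplane {S : Finset V} (hc : S.card ≤ n) :
    ∃ a : Option (Fin n) → ℝ, a ≠ 0 ∧ ∀ v ∈ S, ev a (P v) = 0 := by
  let L : (Option (Fin n) → ℝ) →ₗ[ℝ] (S → ℝ) :=
    { toFun := fun a v => ev a (P v)
      map_add' := by
        intro a b; funext v
        simp only [ev, Pi.add_apply, add_mul, Finset.sum_add_distrib]; ring
      map_smul' := by
        intro c a; funext v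
        simp only [ev, Pi.smul_apply, smul_eq_mul, RingHom.id_apply, mul_add, Finset.mul_sum,
          mul_assoc] }
  have hlt : Module.finrank ℝ (S → ℝ) < Module.finrank ℝ (Option (Fin n) → ℝ) := by
    simp only [Module.finrank_fintype_fun_eq_card, Fintype.card_option, Fintype.card_fin,
      Fintype.card_coe]
    omega
  obtain ⟨a, ha, ha0⟩ := (Submodule.ne_bot_iff _).1 (LinearMap.ker_ne_bot_of_finrank_lt hlt)
  exact ⟨a, ha0, fun v hv => congrFun (show L a = 0 from ha) ⟨v, hv⟩⟩

end

end Pool.Agent.Lib.H17.VR
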