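import Pool.Agent.Lib.H17.VR.Reg

/-!
# Regular triangulations: generic heights, intersections, covering
-/

namespace Pool.Agent.Lib.H17.VR

open Finset Filter Topology Polynomial
open scoped BigOperators

section

variable {n : ℕ} {V : Type} [Fintype V] [DecidableEq V] (P : V → Fin n → ℝ)

/-- generic heights -/
def Generic (w : V → ℝ) : Prop := ∀ S : Finset V, ¬ Indep P S →
  ∃ d : V → ℝ, (∀ v, v ∉ S → d v = 0) ∧ Dep P d ∧ ∑ v, d v * w v ≠ 0

theorem eventually_ne_zero {q : ℝ[X]} (hq : q ≠ 0) : ∀ᶠ t in 𝓝[>] (0 : ℝ), q.eval t ≠ 0 := by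
  have hfin : Set.Finite ({t | q.IsRoot t} \ {0}) := (Polynomial.finite_setOfPred_isRoot hq).subset
    Set.sdiff_subset
  have h1 : ({t | q.IsRoot t} \ {0})ᶜ ∈ 𝓝 (0 : ℝ) :=
    hfin.isClosed.isOpen_compl.mem_nhds (by simp)
  filter_upwards [mem_nhdsWithin_of_mem_nhds h1, self_mem_nhdsWithin] with t ht ht0 h0
  exact ht ⟨h0, (ne_of_gt ht0 : t ≠ 0)⟩

variable {P}

theorem exists_generic (w : V → ℝ) {ι : Type} [Finite ι] (F : ι → (V → ℝ) → ℝ)
    (hF : ∀ c, Continuous (F c)) (h : ∀ c, F c w < 0) :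
    ∃ w' : V → ℝ, Generic P w' ∧ ∀ c, F c w' < 0 := by
  classical
  set e := Fintype.equivFin V
  set W : ℝ → V → ℝ := fun t v => w v + t ^ ((e v : ℕ) + 1) with hW
  have hWc : Continuous W := by
    apply continuous_pi
    intro v
    exact continuous_const.add (continuous_pow _)
  have hW0 : W 0 = w := by
    funext v; simp [hW]
  have h1 : ∀ᶠ t in 𝓝[>] (0 : ℝ), ∀ c, F c (W t) < 0 := by
    rw [eventually_all]
    intro c
    apply mem_nhdsWithin_of_mem_nhds
    have : Continuous fun t => F c (W t) := (hF c).comp hWc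
    apply this.continuousAt.eventually_lt continuousAt_const
    simp only [hW0]
    exact h c
  have h2 : ∀ᶠ t in 𝓝[>] (0 : ℝ), ∀ S : {S : Finset V // ¬ Indep P S},
      ∃ d : V → ℝ, (∀ v, v ∉ S.1 → d v = 0) ∧ Dep P d ∧ ∑ v, d v * W t v ≠ 0 := by
    rw [eventually_all]
    rintro ⟨S, hS⟩
    unfold Indep at hS
    push Not at hS
    obtain ⟨d, hd1, hd2, hd3⟩ := hS
    set q : ℝ[X] := C (∑ v, d v * w v) + ∑ v, monomial ((e v : ℕ) + 1) (d v) with hq
    have hq0 : q ≠ 0 := by
      intro h0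
      apply hd3
      funext v
      have := congrArg (fun p => Polynomial.coeff p ((e v : ℕ) + 1)) h0
      simp only [hq, coeff_add, coeff_C_succ, zero_add, finsetSum_coeff, coeff_monomial,
        coeff_zero] at this
      rw [Finset.sum_eq_single v] at this
      · simpa using this
      · intro u _ hu
        rw [if_neg]
        intro h'
        apply hu
        apply e.injective
        apply Fin.ext
        omega
      · intro h'; exact absurd (Finset.mem_univ v) h'
    filter_upwards [eventually_ne_zero hq0] with t ht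
    refine ⟨d, hd1, hd2, ?_⟩
    have : ∑ v, d v * W t v = q.eval t := by
      rw [hq, eval_add, eval_C, eval_finsetSum]
      simp only [hW, mul_add, Finset.sum_add_distrib, eval_monomial]
    rw [this]
    exact ht
  obtain ⟨t, ht1, ht2⟩ := (h1.and h2).exists
  exact ⟨W t, fun S hS => ht2 ⟨S, hS⟩, ht1⟩

open Classical in
variable (P) in
/-- the simplices of the regular triangulation -/
noncomputable def Tri (w : V → ℝ) : Finset (Finset V) :=
  Finset.univ.filter fun S => S.card = n + 1 ∧ Indep P S ∧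
    ∃ a, (∀ v ∈ S, ev a (P v) = w v) ∧ ∀ v, ev a (P v) ≤ w v

variable {w : V → ℝ}

theorem mem_Tri {S : Finset V} : S ∈ Tri P w ↔ S.card = n + 1 ∧ Indep P S ∧
    ∃ a, (∀ v ∈ S, ev a (P v) = w v) ∧ ∀ v, ev a (P v) ≤ w v := by
  classical
  unfold Tri
  rw [Finset.mem_filter]
  exact ⟨fun h => h.2, fun h => ⟨Finset.mem_univ _, h⟩⟩

/-- the contact set of a supporting function is affinely independent -/
theorem Generic.contact (hw : Generic P w) {S : Finset V} {a : Option (Fin n) → ℝ}
    (ha : ∀ v ∈ S, ev a (P v) = w v) : Indep P S := by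
  by_contra hS
  obtain ⟨d, hd1, hd2, hd3⟩ := hw S hS
  apply hd3
  rw [← hd2.sum_ev a]
  refine Finset.sum_congr rfl fun v _ => ?_
  by_cases hv : v ∈ S
  · rw [ha v hv]
  · rw [hd1 v hv]; ring

theorem Tri_inter_sub (hw : Generic P w) {S S' : Finset V} (hS : S ∈ Tri P w)
    (hS' : S' ∈ Tri P w) {x : Fin n → ℝ} (hx : x ∈ convexHull ℝ (P '' (S : Set V)))
    (hx' : x ∈ convexHull ℝ (P '' (S' : Set V))) :
    x ∈ convexHull ℝ (P '' ((S ∩ S' : Finset V) : Set V)) := by
  classical
  obtain ⟨_, _, a, ha1, ha2⟩ := mem_Tri.1 hS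
  obtain ⟨hc', _, a', ha1', ha2'⟩ := mem_Tri.1 hS'
  obtain ⟨l, hl1, hl2⟩ := mem_hull_iff.1 hx
  obtain ⟨l', hl1', hl2'⟩ := mem_hull_iff.1 hx'
  have e1 : ∑ v, l v * w v = ev a x := by
    rw [← hl2.sum_ev a]
    refine Finset.sum_congr rfl fun v _ => ?_
    by_cases hv : v ∈ S
    · rw [ha1 v hv]
    · rw [hl1 v hv]; ring
  have e2 : ∑ v, l' v * w v = ev a' x := by
    rw [← hl2'.sum_ev a']
    refine Finset.sum_congr rfl fun v _ => ?_
    by_cases hv : v ∈ S'
    · rw [ha1' v hv]
    · rw [hl1' v hv]; ring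
  have e3 : ev a x ≤ ev a' x := by
    rw [← hl2'.sum_ev a, ← e2]
    exact Finset.sum_le_sum fun v _ => mul_le_mul_of_nonneg_left (ha2 v) (hl2'.1 v)
  have e4 : ∑ v, l v * (w v - ev a' (P v)) ≤ 0 := by
    simp only [mul_sub, Finset.sum_sub_distrib]
    rw [e1, hl2.sum_ev a']
    linarith
  have e5 : ∀ v, l v * (w v - ev a' (P v)) = 0 := by
    have h0 : ∀ v ∈ (Finset.univ : Finset V), 0 ≤ l v * (w v - ev a' (P v)) := fun v _ =>
      mul_nonneg (hl2.1 v) (by have := ha2' v; linarith)
    have h1 := le_antisymm e4 (Finset.sum_nonneg h0)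
    exact fun v => (Finset.sum_eq_zero_iff_of_nonneg h0).1 h1 v (Finset.mem_univ v)
  refine mem_hull_iff.2 ⟨l, fun v hv => ?_, hl2⟩
  by_contra hne
  have hvS : v ∈ S := by
    by_contra h; exact hne (hl1 v h)
  have hvS' : v ∉ S' := fun h => hv (Finset.mem_inter.2 ⟨hvS, h⟩)
  have h6 : w v = ev a' (P v) := by
    rcases mul_eq_zero.1 (e5 v) with h | h
    · exact absurd h hne
    · linarith
  have h7 : Indep P (insert v S') := hw.contact (a := a') fun u hu => by
    rcases Finset.mem_insert.1 hu with rfl | hu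
    · exact h6.symm
    · exact ha1' u hu
  have h8 := h7.card_le
  rw [Finset.card_insert_of_notMem hvS', hc'] at h8
  omega

theorem Tri_inter (hw : Generic P w) {S S' : Finset V} (hS : S ∈ Tri P w)
    (hS' : S' ∈ Tri P w) :
    convexHull ℝ (P '' (S : Set V)) ∩ convexHull ℝ (P '' (S' : Set V)) =
      convexHull ℝ (P '' ((S ∩ S' : Finset V) : Set V)) := by
  apply Set.Subset.antisymm
  · rintro x ⟨h1, h2⟩
    exact Tri_inter_sub hw hS hS' h1 h2
  · intro x hx
    refine ⟨convexHull_mono (Set.image_mono ?_) hx, convexHull_mono (Set.image_mono ?_) hx⟩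
    · intro v hv; exact (Finset.mem_inter.1 (Finset.mem_coe.1 hv)).1
    · intro v hv; exact (Finset.mem_inter.1 (Finset.mem_coe.1 hv)).2

/-- covering at generic points -/
theorem Tri_cover_generic (hw : Generic P w) {x : Fin n → ℝ}
    (hx : x ∈ convexHull ℝ (P '' ((Finset.univ : Finset V) : Set V)))
    (hgen : ∀ S : Finset V, S.card ≤ n → x ∉ convexHull ℝ (P '' (S : Set V))) :
    ∃ S ∈ Tri P w, x ∈ convexHull ℝ (P '' (S : Set V)) := by
  classical
  set K : Set (V → ℝ) := {l | Bary P l x} with hK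
  have hKc : IsCompact K := by
    have hcl : IsClosed K := by
      have : K = {l | ∀ v, 0 ≤ l v} ∩ ({l | ∑ v, l v = 1} ∩ {l | ∀ i, ∑ v, l v * P v i = x i}) := by
        ext l; rfl
      rw [this]
      refine IsClosed.inter ?_ (IsClosed.inter ?_ ?_)
      · rw [Set.ofPred_forall]
        exact isClosed_iInter fun v => isClosed_le continuous_const (continuous_apply v)
      · exact isClosed_eq (continuous_finsetSum _ fun v _ => continuous_apply v) continuous_const
      · rw [Set.ofPred_forall]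
        exact isClosed_iInter fun i => isClosed_eq (continuous_finsetSum _ fun v _ =>
          (continuous_apply v).mul continuous_const) continuous_const
    refine IsCompact.of_isClosed_subset (isCompact_univ_pi fun _ : V => isCompact_Icc (a := (0 : ℝ))
      (b := 1)) hcl ?_
    rintro l ⟨h1, h2, _⟩ v _
    exact ⟨h1 v, by rw [← h2]; exact Finset.single_le_sum (fun u _ => h1 u) (Finset.mem_univ v)⟩
  obtain ⟨l0, _, hl0⟩ := mem_hull_iff.1 hx
  obtain ⟨l, hl, hmin⟩ := hKc.exists_isMinOn ⟨l0, hl0⟩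
    (f := fun l : V → ℝ => ∑ v, l v * w v)
    (continuous_finsetSum _ fun v _ => (continuous_apply v).mul continuous_const).continuousOn
  have hmin' : ∀ m, Bary P m x → ∑ v, l v * w v ≤ ∑ v, m v * w v := fun m hm => hmin hm
  obtain ⟨hl1, hl2, hl3⟩ := hl
  -- moving along dependencies
  have hmove : ∀ d : V → ℝ, Dep P d → (∀ v, l v = 0 → 0 ≤ d v) → 0 ≤ ∑ v, d v * w v := by
    intro d hd hpos
    -- step size
    obtain ⟨ε, hε, hεl⟩ : ∃ ε : ℝ, 0 < ε ∧ ∀ v, 0 ≤ l v + ε * d v := by
      have h1 : ∀ᶠ ε in 𝓝[>] (0 : ℝ), ∀ v, 0 ≤ l v + ε * d v := by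
        rw [eventually_all]
        intro v
        rcases (hl1 v).eq_or_lt with h0 | h0
        · filter_upwards [self_mem_nhdsWithin] with ε hε
          rw [← h0, zero_add]
          exact mul_nonneg (le_of_lt hε) (hpos v h0.symm)
        · apply mem_nhdsWithin_of_mem_nhds
          have hc : Continuous fun ε : ℝ => l v + ε * d v :=
            continuous_const.add (continuous_id.mul continuous_const)
          have h2 := (continuousAt_const (x := (0 : ℝ)) (y := (0 : ℝ))).eventually_lt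
            hc.continuousAt (by simpa using h0)
          filter_upwards [h2] with ε hε using hε.le
      obtain ⟨ε, h2, h3⟩ := (h1.and self_mem_nhdsWithin).exists
      exact ⟨ε, h3, h2⟩
    have h1 := hmin' (fun v => l v + ε * d v) ⟨hεl, by
      rw [Finset.sum_add_distrib, ← Finset.mul_sum, hd.1, hl2]; ring, fun i => by
      simp only [add_mul, Finset.sum_add_distrib, mul_assoc, ← Finset.mul_sum]
      rw [hd.2 i, hl3 i]; ring⟩
    simp only [add_mul, Finset.sum_add_distrib, mul_assoc, ← Finset.mul_sum] at h1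
    have h2 : 0 ≤ ε * ∑ v, d v * w v := by linarith
    exact nonneg_of_mul_nonneg_right h2 hε
  set S : Finset V := Finset.univ.filter fun v => l v ≠ 0 with hSdef
  have hSmem : ∀ v, v ∈ S ↔ l v ≠ 0 := fun v => by simp [hSdef]
  have hS : Indep P S := by
    by_contra hcon
    obtain ⟨d, hd1, hd2, hd3⟩ := hw S hcon
    have hz : ∀ v, l v = 0 → d v = 0 := fun v hv => hd1 v fun h => (hSmem v).1 h hv
    have h1 := hmove d hd2 fun v hv => (hz v hv).ge
    have h2 := hmove (fun v => - d v) ⟨by rw [Finset.sum_neg_distrib, hd2.1, neg_zero], fun i => by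
      simp only [neg_mul, Finset.sum_neg_distrib, hd2.2 i, neg_zero]⟩ fun v hv => by
      rw [hz v hv, neg_zero]
    simp only [neg_mul, Finset.sum_neg_distrib] at h2
    exact hd3 (le_antisymm (by linarith) h1)
  have hxS : x ∈ convexHull ℝ (P '' (S : Set V)) :=
    mem_hull_iff.2 ⟨l, fun v hv => by_contra fun h => hv ((hSmem v).2 h), hl1, hl2, hl3⟩
  have hcard : S.card = n + 1 := by
    have h1 := hS.card_le
    have h2 : ¬ S.card ≤ n := fun h => hgen S h hxS
    omega
  refine ⟨S, mem_Tri.2 ⟨hcard, hS, ?_⟩, hxS⟩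
  obtain ⟨a, ha⟩ := hS.interp hcard w
  refine ⟨a, ha, fun v => ?_⟩
  obtain ⟨m, hm1, hm2, hm3⟩ := hS.coords hcard (P v)
  have h1 := hmove (fun u => (if u = v then 1 else 0) - m u) ⟨by
    rw [Finset.sum_sub_distrib, hm2]; simp, fun i => by
    simp only [sub_mul, Finset.sum_sub_distrib, hm3 i]; simp⟩ (fun u hu => by
    rw [hm1 u fun h => (hSmem u).1 h hu, sub_zero]
    split_ifs <;> norm_num)
  simp only [sub_mul, Finset.sum_sub_distrib, ite_mul, one_mul, zero_mul, Finset.sum_ite_eq',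
    Finset.mem_univ, if_true] at h1
  have h2 : ∑ u, m u * w u = ev a (P v) := by
    have h3 : ∑ u, m u * w u = ∑ u, m u * ev a (P u) := by
      refine Finset.sum_congr rfl fun u _ => ?_
      by_cases hu : u ∈ S
      · rw [ha u hu]
      · rw [hm1 u hu]; ring
    rw [h3, VR.sum_ev, hm2, mul_one]
    unfold ev
    congr 1
    exact Finset.sum_congr rfl fun i _ => by rw [hm3 i]
  linarith

/-- the simplices cover the hull -/
theorem Tri_cover (hw : Generic P w)
    (hgp : ∀ A : Finset (Option (Fin n) → ℝ), (∀ a ∈ A, a ≠ 0) →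
      ∃ y ∈ convexHull ℝ (P '' ((Finset.univ : Finset V) : Set V)), ∀ a ∈ A, ev a y ≠ 0)
    {x : Fin n → ℝ} (hx : x ∈ convexHull ℝ (P '' ((Finset.univ : Finset V) : Set V))) :
    ∃ S ∈ Tri P w, x ∈ convexHull ℝ (P '' (S : Set V)) := by
  classical
  choose a ha0 ha using fun S : {S : Finset V // S.card ≤ n} => exists_hyperplane (P := P) S.2
  obtain ⟨y, hy, hya⟩ := hgp (Finset.univ.image a) (by
    intro b hb
    obtain ⟨S, _, rfl⟩ := Finset.mem_image.1 hb
    exact ha0 S)
  have hya' : ∀ S, ev (a S) y ≠ 0 := fun S => hya _ (Finset.mem_image_of_mem _ (Finset.mem_univ S))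
  -- the union is closed
  have hcl : IsClosed (⋃ S ∈ Tri P w, convexHull ℝ (P '' (S : Set V))) := by
    refine Set.Finite.isClosed_biUnion (Finset.finite_toSet (Tri P w)) fun S _ => ?_
    exact (S.finite_toSet.image P).isClosed_convexHull ℝ
  have hev : ∀ (b : Option (Fin n) → ℝ) (t : ℝ),
      ev b ((1 - t) • x + t • y) = (1 - t) * ev b x + t * ev b y := by
    intro b t
    unfold ev
    simp only [Pi.add_apply, Pi.smul_apply, smul_eq_mul, mul_add, Finset.sum_add_distrib,
      Finset.mul_sum]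
    have e1 : ∀ i, b (some i) * ((1 - t) * x i) = (1 - t) * (b (some i) * x i) := fun i => by ring
    have e2 : ∀ i, b (some i) * (t * y i) = t * (b (some i) * y i) := fun i => by ring
    simp only [e1, e2]
    ring
  have h1 : ∀ᶠ t in 𝓝[>] (0 : ℝ), ∀ S : {S : Finset V // S.card ≤ n},
      ev (a S) ((1 - t) • x + t • y) ≠ 0 := by
    rw [eventually_all]
    intro S
    have hq : (C (ev (a S) x) + X * C (ev (a S) y - ev (a S) x) : ℝ[X]) ≠ 0 := by
      intro h0
      have h2 := congrArg (fun p => Polynomial.eval 1 p) h0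
      simp only [eval_add, eval_C, eval_mul, eval_X, eval_zero] at h2
      exact hya' S (by linarith)
    filter_upwards [eventually_ne_zero hq] with t ht
    rw [hev]
    intro h0
    apply ht
    simp only [eval_add, eval_C, eval_mul, eval_X]
    linarith
  have h2 : ∀ᶠ t in 𝓝[>] (0 : ℝ), t < 1 :=
    mem_nhdsWithin_of_mem_nhds (Iio_mem_nhds (by norm_num))
  have h3 : ∀ᶠ t in 𝓝[>] (0 : ℝ), (1 - t) • x + t • y ∈
      ⋃ S ∈ Tri P w, convexHull ℝ (P '' (S : Set V)) := by
    filter_upwards [h1, h2, self_mem_nhdsWithin] with t ht ht1 ht0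
    have hmem : (1 - t) • x + t • y ∈ convexHull ℝ (P '' ((Finset.univ : Finset V) : Set V)) :=
      (convex_convexHull ℝ _) hx hy (by linarith) (le_of_lt ht0) (by ring)
    obtain ⟨S, hS, hxS⟩ := Tri_cover_generic hw hmem (by
      intro S hS hmem'
      obtain ⟨l, hl1, hl2⟩ := mem_hull_iff.1 hmem'
      apply ht ⟨S, hS⟩
      rw [← hl2.sum_ev]
      refine Finset.sum_eq_zero fun v _ => ?_
      by_cases hv : v ∈ S
      · rw [ha ⟨S, hS⟩ v hv, mul_zero]
      · rw [hl1 v hv, zero_mul])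
    exact Set.mem_iUnion₂.2 ⟨S, hS, hxS⟩
  have h4 : Tendsto (fun t : ℝ => (1 - t) • x + t • y) (𝓝[>] (0 : ℝ)) (𝓝 x) := by
    have hc : Continuous fun t : ℝ => (1 - t) • x + t • y := by fun_prop
    have := hc.tendsto 0
    simp only [sub_zero, one_smul, zero_smul, add_zero] at this
    exact this.mono_left nhdsWithin_le_nhds
  have h5 := hcl.mem_of_tendsto h4 h3
  obtain ⟨S, hS, hxS⟩ := Set.mem_iUnion₂.1 h5
  exact ⟨S, hS, hxS⟩

end

end Pool.Agent.Lib.H17.VR
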